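import Pool.Agent.H8.VR.Sys

/-!
# Insertion of one element
-/

set_option autoImplicit false

namespace Pool.Agent.H8.VR

open Classical

section
variable {A : Type} [Fintype A]

theorem num_congr {P P' : A → Prop} (h : ∀ a, P a ↔ P' a) : num P = num P' := by
  have : P = P' := funext fun a => propext (h a)
  rw [this]

theorem num_pos {P : A → Prop} (h : num P ≠ 0) : ∃ a, P a := by
  obtain ⟨x, hx⟩ := Finset.card_pos.1 (Nat.pos_of_ne_zero h)
  exact ⟨x, (Finset.mem_filter.1 hx).2⟩

theorem ind_pos {P : Prop} (h : P) : ind P = 1 := if_pos h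

theorem ind_neg {P : Prop} (h : ¬ P) : ind P = 0 := if_neg h

theorem ind_congr {P P' : Prop} (h : P ↔ P') : ind P = ind P' := by rw [propext h]

theorem num_fib {β : Type} [Fintype β] (Q : A → Prop) (f : A → β) (P : β → Prop) :
    num (fun a => Q a ∧ P (f a)) = fs P (fun b => num (fun a => Q a ∧ f a = b)) := by
  unfold num fs
  rw [Finset.card_eq_sum_card_fiberwise (f := f) (t := Finset.univ.filter P)]
  · refine Finset.sum_congr rfl fun b hb => ?_
    congr 1
    ext a
    simp only [Finset.mem_filter, Finset.mem_univ, true_and] at hb ⊢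
    constructor
    · rintro ⟨⟨h1, _⟩, h3⟩
      exact ⟨h1, h3⟩
    · rintro ⟨h1, rfl⟩
      exact ⟨⟨h1, hb⟩, rfl⟩
  · intro a ha
    simp only [Finset.coe_filter, Finset.mem_univ, true_and, Set.mem_ofPred_eq] at ha ⊢
    exact ha.2

theorem num_union (X Y : Set A) (h : Disjoint X Y) (P : A → Prop) :
    num (fun a => a ∈ X ∪ Y ∧ P a) = num (fun a => a ∈ X ∧ P a) + num (fun a => a ∈ Y ∧ P a) := by
  unfold num
  rw [← Finset.card_union_of_disjoint]
  · congr 1
    ext a
    simp only [Finset.mem_filter, Finset.mem_univ, true_and, Finset.mem_union, Set.mem_union]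
    tauto
  · rw [Finset.disjoint_left]
    intro a ha hb
    simp only [Finset.mem_filter, Finset.mem_univ, true_and] at ha hb
    exact Set.disjoint_left.1 h ha.1 hb.1

theorem num_single (z : A) (P : A → Prop) :
    num (fun a => a ∈ ({z} : Set A) ∧ P a) = ind (P z) := by
  by_cases hz : P z
  · rw [ind_pos hz]
    unfold num
    rw [Finset.card_eq_one]
    refine ⟨z, ?_⟩
    ext a
    simp only [Finset.mem_filter, Finset.mem_univ, true_and, Set.mem_singleton_iff,
      Finset.mem_singleton]
    constructor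
    · rintro ⟨h1, _⟩; exact h1
    · rintro rfl; exact ⟨rfl, hz⟩
  · rw [ind_neg hz]
    by_contra h
    obtain ⟨a, h1, h2⟩ := num_pos h
    rw [Set.mem_singleton_iff] at h1
    exact hz (h1 ▸ h2)

theorem num_insert (Y : Set A) (z : A) (h : z ∉ Y) (P : A → Prop) :
    num (fun a => a ∈ insert z Y ∧ P a) = num (fun a => a ∈ Y ∧ P a) + ind (P z) := by
  have e : insert z Y = Y ∪ {z} := by
    ext a
    simp
  rw [e, num_union _ _ (Set.disjoint_singleton_right.2 h), num_single]

end

section
variable {N Q L T O C A : Type} [Fintype A]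

theorem kn_union (lam : A → L) (th : A → A → T) (X Y : Set A) (h : Disjoint X Y) (a : A)
    (p : L × T) : kn lam th (X ∪ Y) a p = kn lam th X a p + kn lam th Y a p := by
  unfold kn
  exact num_union X Y h _

theorem kn_insert (lam : A → L) (th : A → A → T) (Y : Set A) (z : A) (h : z ∉ Y) (a : A)
    (hza : z ≠ a) (p : L × T) :
    kn lam th (insert z Y) a p = kn lam th Y a p + ind ((lam z, th a z) = p) := by
  unfold kn
  rw [num_insert Y z h]
  congr 1
  refine ind_congr ?_
  rw [Prod.ext_iff]
  exact ⟨fun h1 => h1.2, fun h1 => ⟨hza, h1⟩⟩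

theorem kn_insert_self (lam : A → L) (th : A → A → T) (Y : Set A) (z : A) (p : L × T) :
    kn lam th (insert z Y) z p = kn lam th Y z p := by
  unfold kn
  refine num_congr fun b => ?_
  rw [Set.mem_insert_iff]
  constructor
  · rintro ⟨h1 | h1, h2, h3⟩
    · exact absurd h1 h2
    · exact ⟨h1, h2, h3⟩
  · rintro ⟨h1, h2⟩
    exact ⟨Or.inr h1, h2⟩

theorem Cp.ad_zero (K : Cp C) (n : ℕ) : K.ad (K.cp n) (K.cp 0) = K.cp n := by
  rw [← K.cp_add, add_zero]

theorem stt_insert (K : Cp C) (lam : A → L) (th : A → A → T) (Y : Set A) (z : A) (h : z ∉ Y)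
    (a : A) (hza : z ≠ a) : stt K lam th (insert z Y) a =
      ((stt K lam th Y a).1, Function.update (stt K lam th Y a).2 (lam z, th a z)
        (K.ad ((stt K lam th Y a).2 (lam z, th a z)) (K.cp 1))) := by
  unfold stt
  refine Prod.ext rfl (funext fun p => ?_)
  simp only
  rw [kn_insert lam th Y z h a hza p]
  by_cases hp : (lam z, th a z) = p
  · subst hp
    rw [ind_pos rfl, Function.update_self, K.cp_add]
  · rw [ind_neg hp, Function.update_of_ne (Ne.symm hp), add_zero]

end

section
variable {N Q L T O C A : Type} [Fintype Q] [Fintype L] [Fintype T] [Fintype C] [Fintype A]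

/-- the matrix of the types from the left elements to `z` -/
noncomputable def mz (K : Cp C) (lam : A → L) (th : A → A → T) (X V : Set A) (col : A → Q) (z : A) :
    Ix Q L T C × T → ℕ := fun p =>
  num fun x => x ∈ X ∧ ((col x, stt K lam th V x), th x z) = p

theorem step_lemma (S : Sg N Q L T O) (K : Cp C) (lam : A → L) (th : A → A → T) (hs : Sym S th)
    (X Y Z : Set A) (z : A) (hXY : Disjoint X Y) (hXZ : Disjoint X Z)
    (hzX : z ∉ X) (hzY : z ∉ Y) (hzZ : z ∉ Z) (col : A → Q) (o : O)
    (hal : ∀ x ∈ X, S.al o (col x) (col z) (th x z)) :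
    Step S K o (col z, stt K lam th (Y ∪ insert z Z) z) (mz K lam th X (X ∪ Z) col z)
      (cf K lam th X (X ∪ Z) col) (cf K lam th (insert z Y) (Y ∪ insert z Z) col)
      (cf K lam th Z (X ∪ Y ∪ insert z Z) col) (cf K lam th X (X ∪ insert z Z) col)
      (cf K lam th Y (Y ∪ insert z Z) col) (cf K lam th (insert z Z) (X ∪ Y ∪ insert z Z) col) := by
  have hne : ∀ x ∈ X, z ≠ x := fun x hx h => hzX (h ▸ hx)
  refine ⟨fun σ => ?_, fun p hp => ?_, fun σ => ?_, fun σ => ?_, fun σ => ?_⟩
  · unfold mz cf
    rw [num_fib (fun x => x ∈ X) (fun x => ((col x, stt K lam th (X ∪ Z) x), th x z))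
      (fun p => p.1 = σ)]
    unfold fs
    rw [Finset.sum_filter]
    rw [Fintype.sum_prod_type]
    rw [Finset.sum_eq_single σ]
    · refine Finset.sum_congr rfl fun θ _ => ?_
      rw [if_pos rfl]
    · intro σ' _ h
      exact Finset.sum_eq_zero fun θ _ => if_neg h
    · intro h
      exact absurd (Finset.mem_univ _) h
  · unfold mz at hp
    obtain ⟨x, hx, rfl⟩ := num_pos hp
    exact hal x hx
  · unfold cf
    rw [num_insert Y z hzY]
    congr 1
    exact ind_congr eq_comm
  · unfold mz cf
    rw [← num_fib (fun x => x ∈ X) (fun x => ((col x, stt K lam th (X ∪ Z) x), th x z))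
      (fun p => up K (col z, stt K lam th (Y ∪ insert z Z) z) p = σ)]
    refine num_congr fun x => ?_
    refine and_congr_right fun hx => ?_
    have e : X ∪ insert z Z = insert z (X ∪ Z) := Set.union_insert
    have hz : z ∉ X ∪ Z := fun h => h.elim hzX hzZ
    rw [e, stt_insert K lam th (X ∪ Z) z hz x (hne x hx)]
    rfl
  · unfold cf
    rw [num_insert Z z hzZ]
    congr 1
    refine ind_congr ?_
    have e : (col z, stt K lam th (X ∪ Y ∪ insert z Z) z) =
        nw S K (col z, stt K lam th (Y ∪ insert z Z) z) (mz K lam th X (X ∪ Z) col z) := by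
      unfold nw
      refine Prod.ext rfl (Prod.ext rfl (funext fun p => ?_))
      simp only [stt]
      have e1 : X ∪ Y ∪ insert z Z = (Y ∪ insert z Z) ∪ X := by
        rw [Set.union_assoc, Set.union_comm]
      have hd : Disjoint (Y ∪ insert z Z) X := by
        rw [Set.disjoint_union_left]
        refine ⟨hXY.symm, ?_⟩
        rw [Set.disjoint_insert_left]
        exact ⟨hzX, hXZ.symm⟩
      rw [e1, kn_union lam th _ _ hd, K.cp_add]
      congr 2
      unfold kn mz
      have e2 : ∀ σ : Ix Q L T C, (num fun x => x ∈ X ∧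
          ((col x, stt K lam th (X ∪ Z) x), th x z) = (σ, S.sw p.2)) =
          num fun x => (x ∈ X ∧ th x z = S.sw p.2) ∧ (col x, stt K lam th (X ∪ Z) x) = σ := by
        intro σ
        refine num_congr fun x => ?_
        rw [Prod.mk.injEq]
        tauto
      simp only [e2]
      rw [← num_fib (fun x => x ∈ X ∧ th x z = S.sw p.2)
        (fun x => (col x, stt K lam th (X ∪ Z) x)) (fun σ => σ.2.1 = p.1)]
      refine num_congr fun x => ?_
      simp only [stt]
      constructor
      · rintro ⟨h1, h2, h3, h4⟩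
        refine ⟨⟨h1, ?_⟩, h3⟩
        rw [← h4, hs z x (hne x h1)]
      · rintro ⟨⟨h1, h2⟩, h3⟩
        refine ⟨h1, Ne.symm (hne x h1), h3, ?_⟩
        rw [hs x z (Ne.symm (hne x h1)), h2, S.sw_sw]
    rw [e]
    exact eq_comm

end

end Pool.Agent.H8.VR
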