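import Pool.Agent.H8.VR.Targets
import Pool.Agent.H8.VR.StepL

/-!
# Totals
-/

set_option autoImplicit false

namespace Pool.Agent.H8.VR

open Pool.Agent.H69.Sp Pool.Agent.H69.Mt Classical

theorem sum_fs_fiber {ι κ : Type} [Fintype ι] [Fintype κ] (h : ι → κ) (f : ι → ℕ) :
    ∑ k, fs (fun i => h i = k) f = ∑ i, f i := by
  unfold fs
  exact Finset.sum_fiberwise Finset.univ h f

theorem sum_ind {κ : Type} [Fintype κ] (k : κ) : ∑ σ : κ, ind (σ = k) = 1 := by
  unfold ind
  rw [Finset.sum_ite_eq' Finset.univ k (fun _ => 1)]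
  simp

theorem le_tot' {Q L T C : Type} [Fintype Q] [Fintype L] [Fintype T] [Fintype C]
    (c : Ix Q L T C → ℕ) (σ : Ix Q L T C) : c σ ≤ tot c :=
  Finset.single_le_sum (f := c) (fun _ _ => Nat.zero_le _) (Finset.mem_univ σ)

theorem pf_tt : T_TT := by
  intro N Q L T O C _ _ _ _ S K
  refine ⟨?_, ?_, ?_, ?_, fun c σ => le_tot' c σ⟩
  · intro A _ lam th X Y c
    have h1 := num_fib (fun a => a ∈ X) (fun a => ((c a, stt K lam th Y a) : Ix Q L T C))
      (fun _ => True)
    have h2 : num (fun a => a ∈ X ∧ True) = X.ncard := by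
      rw [Set.ncard_eq_toFinset_card']
      unfold num
      congr 1
      ext a
      simp
    rw [h2] at h1
    rw [h1]
    unfold tot fs cf
    simp
  · intro o a d c h
    unfold tot
    rw [← sum_fs_fiber (fun ρ : Ix Q L T C => (S.f o ρ.1, ρ.2)) a,
      ← sum_fs_fiber (fun ρ : Ix Q L T C => (S.g o ρ.1, ρ.2)) d, ← Finset.sum_add_distrib]
    exact Finset.sum_congr rfl fun σ _ => h σ
  · rintro o τ m a b d a' b' d' ⟨h1, h2, h3, h4, h5⟩
    have e1 : ∑ p, m p = tot a := by
      rw [Fintype.sum_prod_type]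
      exact Finset.sum_congr rfl fun σ _ => h1 σ
    refine ⟨?_, ?_, ?_, fun p => ?_⟩
    · rw [← e1, ← sum_fs_fiber (up K τ) m]
      exact Finset.sum_congr rfl fun σ _ => h4 σ
    · unfold tot
      rw [← sum_ind τ, ← Finset.sum_add_distrib]
      exact Finset.sum_congr rfl fun σ _ => h3 σ
    · unfold tot
      rw [← sum_ind (nw S K τ m), ← Finset.sum_add_distrib]
      exact Finset.sum_congr rfl fun σ _ => h5 σ
    · rw [← e1]
      exact Finset.single_le_sum (f := m) (fun _ _ => Nat.zero_le _) (Finset.mem_univ p)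
  · intro c
    unfold tot
    rw [Finset.sum_eq_zero_iff]
    simp

end Pool.Agent.H8.VR
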