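import Pool.Agent.H8.VR.Ev
import Pool.Agent.H69.Mt.Refl

/-!
# Two-variable logic over context-free classes: targets
-/

set_option autoImplicit false

namespace Pool.Agent.H8.VR

open Pool.Agent.H69.Sp Pool.Agent.H69.Mt Classical

/-! ### R: configurations -/

/-- transport of generated structures -/
def T_GM : Prop := ∀ (N Q L T O A B : Type) (S : Sg N Q L T O) (lam : A → L) (th : A → A → T)
  (s : N) (X : Set A) (c : A → Q), S.Gen lam th s X c → ∀ (f : A → B), Set.InjOn f X →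
  ∀ (lam' : B → L) (th' : B → B → T) (c' : B → Q), (∀ a ∈ X, lam' (f a) = lam a) →
    (∀ a ∈ X, ∀ b ∈ X, a ≠ b → th' (f a) (f b) = th a b) → (∀ a ∈ X, c' (f a) = c a) →
      S.Gen lam' th' s (f '' X) c'

/-- transport of configurations -/
def T_CM : Prop := ∀ (Q L T C A B : Type) [Fintype A] [Fintype B] (K : Cp C) (lam : A → L)
  (th : A → A → T) (X Y : Set A) (c : A → Q) (f : A → B), Set.InjOn f Y → X ⊆ Y →
  ∀ (lam' : B → L) (th' : B → B → T) (c' : B → Q), (∀ a ∈ Y, lam' (f a) = lam a) →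
    (∀ a ∈ Y, ∀ b ∈ Y, a ≠ b → th' (f a) (f b) = th a b) → (∀ a ∈ X, c' (f a) = c a) →
      cf K lam' th' (f '' X) (f '' Y) c' = cf K lam th X Y c

/-- prescribed numbers in the fibres -/
def T_FB : Prop := ∀ (A ι Θ : Type) [Fintype A] [Fintype Θ] [Nonempty Θ] (X : Set A) (f : A → ι)
  (m : ι × Θ → ℕ), (∀ σ, ∑ θ, m (σ, θ) = num fun a => a ∈ X ∧ f a = σ) →
    ∃ g : A → Θ, ∀ p, (num fun a => a ∈ X ∧ (f a, g a) = p) = m p

/-- totals -/
def T_TT : Prop := ∀ (N Q L T O C : Type) [Fintype Q] [Fintype L] [Fintype T] [Fintype C]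
  (S : Sg N Q L T O) (K : Cp C),
  (∀ (A : Type) [Fintype A] (lam : A → L) (th : A → A → T) (X Y : Set A) (c : A → Q),
    tot (cf K lam th X Y c) = X.ncard) ∧
  (∀ (o : O) (a d c : Ix Q L T C → ℕ), Fn S o a d c → tot c = tot a + tot d) ∧
  (∀ (o : O) (τ : Ix Q L T C) (m : Ix Q L T C × T → ℕ) (a b d a' b' d' : Ix Q L T C → ℕ),
    Step S K o τ m a b d a' b' d' → tot a' = tot a ∧ tot b' + 1 = tot b ∧ tot d' = tot d + 1 ∧
      ∀ p, m p ≤ tot a) ∧
  (∀ c : Ix Q L T C → ℕ, (∀ σ, c σ = 0) ↔ tot c = 0) ∧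
  ∀ (c : Ix Q L T C → ℕ) (σ : Ix Q L T C), c σ ≤ tot c

/-- the generated structures are closed under the rules -/
def T_RC : Prop := ∀ (N Q L T O C : Type) [Fintype Q] [Fintype L] [Fintype T] [Fintype C]
  [Nonempty T] (S : Sg N Q L T O) (K : Cp C) (M n : ℕ),
    Closed S K M n (fun o x y => Nat.pair x y ∉ S.D o) (RF S K) (RJ S K)

/-- the generated structures come from the rules -/
def T_RS : Prop := ∀ (N Q L T O C : Type) [Fintype Q] [Fintype L] [Fintype T] [Fintype C]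
  (S : Sg N Q L T O) (K : Cp C) (M n : ℕ), n < M →
    Supp S K M n (fun o x y => Nat.pair x y ∈ S.D o) (fun s c => RF S K s c ∧ tot c ≤ n)
      (fun o a b d => RJ S K o a b d ∧ tot a + tot b + tot d ≤ n)

/-- supported relations are contained in closed relations -/
def T_IN : Prop := ∀ (N Q L T O C : Type) [Fintype Q] [Fintype L] [Fintype T] [Fintype C]
  (S : Sg N Q L T O) (K : Cp C) (M n : ℕ) (gp gm : O → ℕ → ℕ → Prop)
  (F F' : N → (Ix Q L T C → ℕ) → Prop)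
  (J J' : O → (Ix Q L T C → ℕ) → (Ix Q L T C → ℕ) → (Ix Q L T C → ℕ) → Prop),
  (∀ o x y, 0 < x → 0 < y → x + y ≤ n → gp o x y → ¬ gm o x y) →
  Supp S K M n gp F' J' → Closed S K M n gm F J → ∀ s c, Lt M c → F' s c → F s c

/-- accepted sizes in terms of configurations -/
def T_MM : Prop := ∀ (N Q L T O C : Type) [Fintype Q] [Fintype L] [Fintype T] [Fintype C]
  (S : Sg N Q L T O) (K : Cp C) (s₀ : N) (Ok : St L T C → Prop) (n : ℕ),
    SysMem S K s₀ Ok n ↔ ∃ c, RF S K s₀ c ∧ tot c = n ∧ ∀ σ, c σ ≠ 0 → Ok σ.2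

/-! ### F: definability -/

/-- the list of the values -/
def ls {ι : Type} (k : ℕ) (en : ℕ → ι) (c : ι → ℕ) : List ℕ := (List.range k).map fun j => c (en j)

/-- the coding of the elements of `ι` by the numbers below `k` -/
structure Enum (ι : Type) (k : ℕ) where
  en : ℕ → ι
  ix : ι → ℕ
  ix_lt : ∀ σ, ix σ < k
  en_ix : ∀ σ, en (ix σ) = σ
  ix_en : ∀ j < k, ix (en j) = j

/-- the relations coded by `E` -/
def FE {N ι : Type} (iN : N → ℕ) {k : ℕ} (e : Enum ι k) (E : ℕ → List ℕ → Prop) (s : N) (c : ι → ℕ) :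
    Prop := E (2 * iN s) (ls k e.en c)

/-- the relations coded by `E` -/
def JE {O ι : Type} (iO : O → ℕ) {k : ℕ} (e : Enum ι k) (E : ℕ → List ℕ → Prop) (o : O)
    (a b d : ι → ℕ) : Prop := E (2 * iO o + 1) (ls k e.en a ++ ls k e.en b ++ ls k e.en d)

/-- being closed is definable -/
def T_FC : Prop := ∀ (N Q L T O C : Type) [Finite N] [Finite O] [Fintype Q] [Fintype L] [Fintype T]
  [Fintype C] (S : Sg N Q L T O) (K : Cp C) (iN : N → ℕ) (iO : O → ℕ) (k : ℕ)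
  (e : Enum (Ix Q L T C) k), (∀ x u, FD (fun _ _ v => K.cp (v x) = u)) →
  (∀ o, IsSpectrum (posCompl (S.D o))) →
    ED (fun M E v => Closed S K M (v 0)
      (fun o x y => ∃ z, z < M ∧ z = Nat.pair x y ∧ z ∈ posCompl (S.D o)) (FE iN e E) (JE iO e E))

/-- being supported is definable -/
def T_FS : Prop := ∀ (N Q L T O C : Type) [Finite N] [Finite O] [Fintype Q] [Fintype L] [Fintype T]
  [Fintype C] (S : Sg N Q L T O) (K : Cp C) (iN : N → ℕ) (iO : O → ℕ) (k : ℕ)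
  (e : Enum (Ix Q L T C) k), (∀ x u, FD (fun _ _ v => K.cp (v x) = u)) →
  (∀ o, IsSpectrum (S.D o)) →
    ED (fun M E v => Supp S K M (v 0)
      (fun o x y => ∃ z, z < M ∧ z = Nat.pair x y ∧ z ∈ S.D o) (FE iN e E) (JE iO e E))

/-- acceptance is definable -/
def T_FA : Prop := ∀ (N Q L T C : Type) [Fintype Q] [Fintype L] [Fintype T] [Fintype C]
  (iN : N → ℕ) (k : ℕ) (e : Enum (Ix Q L T C) k) (s₀ : N) (Ok : St L T C → Prop),
    FD (fun M E v => Acc M s₀ Ok (FE iN e E) (v 0))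

/-- the theorem for composition systems -/
def T_SY : Prop := ∀ (N Q L T O C : Type) [Finite N] [Finite O] [Fintype Q] [Fintype L] [Fintype T]
  [Fintype C] [Nonempty T] (S : Sg N Q L T O) (K : Cp C) (s₀ : N) (Ok : St L T C → Prop),
  (∀ x u, FD (fun _ _ v => K.cp (v x) = u)) →
  (∀ o, IsSpectrum (S.D o) ∧ IsSpectrum (posCompl (S.D o))) →
    IsSpectrum {n | 0 < n ∧ SysMem S K s₀ Ok n} ∧ IsSpectrum {n | 0 < n ∧ ¬ SysMem S K s₀ Ok n}

/-! ### N: from formulas to composition systems -/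

/-- correct bits compute the truth values -/
def T_EV : Prop := ∀ (φ : C2) (A : Type) (P : ℕ → A → Prop) (R : ℕ → A → A → Prop) (g : A → φ.Bt),
  φ.Good P R g → ∀ s : Bool → A, (φ.Sat P R s ↔ φ.evA P R g s)

/-- correct bits exist, they form a finite nonempty type -/
def T_GE : Prop := ∀ (φ : C2), (∀ (A : Type) (P : ℕ → A → Prop) (R : ℕ → A → A → Prop),
  ∃ g : A → φ.Bt, φ.Good P R g) ∧ Finite φ.Bt ∧ Nonempty φ.Bt

/-- satisfaction depends only on the relations below `φ.bd` -/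
def T_SC : Prop := ∀ (φ : C2) (A : Type) (P P' : ℕ → A → Prop) (R R' : ℕ → A → A → Prop),
  (∀ i < φ.bd, ∀ a, (P i a ↔ P' i a)) → (∀ i < φ.bd, ∀ a b, (R i a b ↔ R' i a b)) →
    ∀ s : Bool → A, (φ.Sat P R s ↔ φ.Sat P' R' s)

/-- the closure of a formula -/
def T_CL : Prop := ∀ (φ : C2) (A : Type) [Finite A] [Nonempty A] (P : ℕ → A → Prop)
  (R : ℕ → A → A → Prop), ((∀ s : Bool → A, φ.Sat P R s) ↔ ∀ a, φ.clo.Sat P R (fun _ => a)) ∧
    φ.clo.bd = φ.bd

/-- evaluation is local -/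
def T_LO : Prop := ∀ (B : ℕ) (X A : Type) (φ : C2) (π : X → φ.Bt) (lam : A → Lab B X)
  (th : A → A → Ty B) (v : Bool) (a b : A),
  (a ≠ b → th b a = ((th a b).2, (th a b).1) →
    (φ.evA (PfL lam) (RfL lam th) (fun c => π (lam c).2.2) (fun x => if x = v then b else a) ↔
      ev2 φ π (lam a) (lam b) (th a b) v)) ∧
  (φ.evA (PfL lam) (RfL lam th) (fun c => π (lam c).2.2) (fun _ => a) ↔ ev1 φ π (lam a))

/-- the local form of `C2.Good` -/
def T_OK : Prop := ∀ (B : ℕ) (X A C : Type) [Fintype X] [Fintype A] (K : Cp C) (φ : C2)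
  (π : X → φ.Bt) (lam : A → Lab B X) (th : A → A → Ty B), Sep K φ →
    (∀ a b, a ≠ b → th b a = ((th a b).2, (th a b).1)) →
    (φ.Good (PfL lam) (RfL lam th) (fun a => π (lam a).2.2) ↔
      ∀ a, OkF K φ π (stt K lam th Set.univ a))

/-- counting structures exist -/
def T_CP : Prop := ∀ φ : C2, ∃ (C : Type) (_ : Fintype C) (K : Cp C), Sep K φ.clo ∧
  ∀ x u, FD (fun _ _ v => K.cp (v x) = u)

/-- every formula and every grammar define a composition system -/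
def T_N1 : Prop := ∀ (N Q : Type) [Finite N] [Finite Q] (G : Gram N Q) (m : ℕ) (s₀ : N) (φ : C2),
  ∃ (Q' L T C O : Type) (_ : Fintype Q') (_ : Fintype L) (_ : Fintype T) (_ : Fintype C)
    (_ : Finite O) (_ : Nonempty T) (S : Sg N Q' L T O) (K : Cp C) (Ok : St L T C → Prop),
    (∀ x u, FD (fun _ _ v => K.cp (v x) = u)) ∧ (∀ o, ∃ o' ∈ G.ops, S.D o = o'.D) ∧
      ∀ n, n ∈ specG G m s₀ φ ↔ 0 < n ∧ SysMem S K s₀ Ok n

/-! ### the theorem -/

/-- the theorem -/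
def T_VR : Prop := ∀ (N Q : Type) [Finite N] [Finite Q] (G : Gram N Q),
  (∀ o ∈ G.ops, IsSpectrum o.D ∧ IsSpectrum (posCompl o.D)) → ∀ (m : ℕ) (s₀ : N) (φ : C2),
    IsSpectrum (specG G m s₀ φ) ∧ IsSpectrum (posCompl (specG G m s₀ φ))

end Pool.Agent.H8.VR
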