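import Pool.Agent.H8.VR.Blk

/-!
# Being closed is definable
-/

set_option autoImplicit false

namespace Pool.Agent.H8.VR

open Pool.Agent.H69.Sp Pool.Agent.H69.Mt Classical
open Pool.Agent.H58.TW (pf_fs fdS fdS1 fd_sum fd_sum_succ fsum_eq)

section
variable {N Q L T O C : Type}

theorem fd_z {ι : Type} [Finite ι] (p : ι → ℕ) : FD (fun _ _ v => ∀ σ, v (p σ) = 0) :=
  fd_fin _ fun σ => FD.num 0 (p σ)

theorem fd_fe (iN : N → ℕ) {k : ℕ} (e : Enum (Ix Q L T C) k) (s : N) (p : Ix Q L T C → ℕ) :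
    FD (fun _ E v => FE iN e E s (fun σ => v (p σ))) :=
  (FD.par (2 * iN s) ((List.range k).map fun j => p (e.en j))).congr fun M E v _ => by
    unfold FE ls
    rw [List.map_map]
    rfl

theorem fd_je (iO : O → ℕ) {k : ℕ} (e : Enum (Ix Q L T C) k) (o : O) (pa pb pd : Ix Q L T C → ℕ) :
    FD (fun _ E v => JE iO e E o (fun σ => v (pa σ)) (fun σ => v (pb σ)) (fun σ => v (pd σ))) :=
  (FD.par (2 * iO o + 1) (((List.range k).map fun j => pa (e.en j)) ++
    ((List.range k).map fun j => pb (e.en j)) ++ ((List.range k).map fun j => pd (e.en j)))).congr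
    fun M E v _ => by
      unfold JE ls
      rw [List.map_append, List.map_append, List.map_map, List.map_map, List.map_map]
      rfl

variable [Fintype Q] [Fintype L] [Fintype T] [Fintype C]

theorem fd_cpsum (K : Cp C) (hcp : ∀ x u, FD (fun _ _ v => K.cp (v x) = u)) (l : List ℕ) :
    ∀ u, FD (fun _ _ v => K.cp (l.map v).sum = u) := by
  induction l with
  | nil => intro u; exact FD.const (K.cp 0 = u)
  | cons i l ih =>
    intro u
    refine (fd_exf (ι := C × C) (fun w _ _ v => K.cp (v i) = w.1 ∧ K.cp (l.map v).sum = w.2 ∧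
      K.ad w.1 w.2 = u) fun w => (hcp i w.1).and ((ih w.2).and (FD.const _))).congr
      fun M E v _ => ?_
    rw [List.map_cons, List.sum_cons, K.cp_add]
    constructor
    · rintro ⟨w, h1, h2, h3⟩
      rw [h1, h2, h3]
    · intro h
      exact ⟨(K.cp (v i), K.cp (l.map v).sum), rfl, rfl, h⟩

theorem fd_ptc (S : Sg N Q L T O) (K : Cp C) (s : N) (p : Ix Q L T C → ℕ) :
    FD (fun _ _ v => Ptc S K s (fun σ => v (p σ))) := by
  unfold Ptc
  refine (fd_exf (ι := Q × L) (fun w _ _ v => S.pt s w.1 w.2 ∧ ∀ σ, v (p σ) =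
    ind (σ = ((w.1, (w.2, fun _ => K.cp 0)) : Ix Q L T C))) fun w => ?_).congr fun M E v _ => ?_
  · exact (FD.const _).and (fd_fin _ fun σ => FD.num _ (p σ))
  · constructor
    · rintro ⟨w, h1, h2⟩; exact ⟨w.1, w.2, h1, h2⟩
    · rintro ⟨q, l, h1, h2⟩; exact ⟨(q, l), h1, h2⟩

theorem fd_fs {ι : Type} [Fintype ι] (P : ι → Prop) (p : ι → ℕ) (x : ℕ) :
    FD (fun _ _ v => v x = fs P (fun i => v (p i))) :=
  (fdS pf_fs (Finset.univ.filter P) p x).congr fun M E v _ => by
    unfold fs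
    exact eq_comm

theorem fd_nw (S : Sg N Q L T O) (K : Cp C) (hcp : ∀ x u, FD (fun _ _ v => K.cp (v x) = u))
    (τ : Ix Q L T C) (pm : Ix Q L T C × T → ℕ) (σ : Ix Q L T C) :
    FD (fun _ _ v => σ = nw S K τ (fun i => v (pm i))) := by
  have h1 : ∀ q : L × T, FD (fun _ _ v => σ.2.2 q = K.ad (τ.2.2 q)
      (K.cp (fs (fun ρ : Ix Q L T C => ρ.2.1 = q.1) fun ρ => v (pm (ρ, S.sw q.2))))) := by
    intro q
    refine (fd_exf (ι := C) (fun u _ _ v => K.cp ((((Finset.univ.filter fun ρ : Ix Q L T C =>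
      ρ.2.1 = q.1).toList.map fun ρ => pm (ρ, S.sw q.2)).map v).sum) = u ∧
      σ.2.2 q = K.ad (τ.2.2 q) u) fun u => (fd_cpsum K hcp _ u).and (FD.const _)).congr
      fun M E v _ => ?_
    rw [fsum_eq]
    unfold fs
    constructor
    · rintro ⟨u, h2, h3⟩
      rw [h2, h3]
    · intro h
      exact ⟨_, rfl, h⟩
  refine ((FD.const (σ.1 = τ.1 ∧ σ.2.1 = τ.2.1)).and (fd_fin _ h1)).congr fun M E v _ => ?_
  unfold nw
  rw [Prod.ext_iff, Prod.ext_iff, funext_iff]
  exact and_assoc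

theorem fd_step (S : Sg N Q L T O) (K : Cp C) (hcp : ∀ x u, FD (fun _ _ v => K.cp (v x) = u))
    (o : O) (τ : Ix Q L T C) (pm : Ix Q L T C × T → ℕ) (pa pb pd pa' pb' pd' : Ix Q L T C → ℕ) :
    FD (fun _ _ v => Step S K o τ (fun i => v (pm i)) (fun i => v (pa i)) (fun i => v (pb i))
      (fun i => v (pd i)) (fun i => v (pa' i)) (fun i => v (pb' i)) (fun i => v (pd' i))) := by
  unfold Step
  refine FD.and (fd_fin _ fun σ => ?_) (FD.and (fd_fin _ fun p => ?_) (FD.and
    (fd_fin _ fun σ => ?_) (FD.and (fd_fin _ fun σ => ?_) (fd_fin _ fun σ => ?_))))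
  · exact fdS pf_fs Finset.univ (fun θ => pm (σ, θ)) (pa σ)
  · exact ((FD.num 0 (pm p)).not).imp (FD.const _)
  · by_cases h : σ = τ
    · refine (fd_sum_succ [pb' σ] (pb σ)).congr fun M E v _ => ?_
      rw [if_pos h |> fun (e : ind (σ = τ) = 1) => e]
      simp
    · refine (FD.eq (pb' σ) (pb σ)).congr fun M E v _ => ?_
      rw [if_neg h |> fun (e : ind (σ = τ) = 0) => e, add_zero]
  · exact fd_fs (fun p => up K τ p = σ) pm (pa' σ)
  · have h1 := fd_nw S K hcp τ pm σ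
    refine ((h1.imp (fd_sum_succ [pd σ] (pd' σ))).and (h1.not.imp (FD.eq (pd' σ) (pd σ)))).congr
      fun M E v _ => ?_
    by_cases h : σ = nw S K τ (fun i => v (pm i))
    · rw [if_pos h |> fun (e : ind (σ = nw S K τ (fun i => v (pm i))) = 1) => e]
      simp only [List.map_cons, List.map_nil, List.sum_cons, List.sum_nil, add_zero]
      constructor
      · rintro ⟨h2, -⟩; exact (h2 h).symm
      · intro h2; exact ⟨fun _ => h2.symm, fun h3 => absurd h h3⟩
    · rw [if_neg h |> fun (e : ind (σ = nw S K τ (fun i => v (pm i))) = 0) => e, add_zero]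
      constructor
      · rintro ⟨-, h2⟩; exact h2 h
      · intro h2; exact ⟨fun h3 => absurd h3 h, fun _ => h2⟩

theorem fd_fs2 {ι : Type} [Fintype ι] (P P' : ι → Prop) (p p' : ι → ℕ) (x : ℕ) :
    FD (fun _ _ v => v x = fs P (fun i => v (p i)) + fs P' (fun i => v (p' i))) := by
  refine (fd_sum (((Finset.univ.filter P).toList.map p) ++
    ((Finset.univ.filter P').toList.map p')) x).congr fun M E v _ => ?_
  rw [List.map_append, List.sum_append, fsum_eq, fsum_eq]
  unfold fs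
  exact eq_comm

theorem fd_fn (S : Sg N Q L T O) (o : O) (pa pd pc : Ix Q L T C → ℕ) :
    FD (fun _ _ v => Fn S o (fun i => v (pa i)) (fun i => v (pd i)) (fun i => v (pc i))) := by
  unfold Fn
  exact fd_fin _ fun σ => fd_fs2 (fun ρ => (S.f o ρ.1, ρ.2) = σ) (fun ρ => (S.g o ρ.1, ρ.2) = σ)
    pa pd (pc σ)

end

theorem pf_fc : T_FC := by
  intro N Q L T O C _ _ _ _ _ _ S K iN iO k e hcp hD
  have h1 : FD (fun M E v => ∀ s, ∀ c : Ix Q L T C → ℕ, Lt M c → Ptc S K s c →
      FE iN e E s c) := fd_fin _ fun s =>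
    fd_allI (fun M E c _ => Ptc S K s c → FE iN e E s c) fun p =>
      (fd_ptc S K s p).imp (fd_fe iN e s p)
  have h2 : ED (fun M E v => ∀ o, ∀ c : Fin 3 × Ix Q L T C → ℕ, Lt M c →
      (∀ σ, c (2, σ) = 0) → FE iN e E (S.s o) (fun σ => c (0, σ)) →
      FE iN e E (S.t o) (fun σ => c (1, σ)) → 0 < tot (fun σ => c (0, σ)) →
      0 < tot (fun σ => c (1, σ)) → tot (fun σ => c (0, σ)) + tot (fun σ => c (1, σ)) ≤ v 0 →
      (∃ z, z < M ∧ z = Nat.pair (tot (fun σ => c (0, σ))) (tot (fun σ => c (1, σ))) ∧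
        z ∈ posCompl (S.D o)) ∨
      JE iO e E o (fun σ => c (0, σ)) (fun σ => c (1, σ)) (fun σ => c (2, σ))) := by
    refine ed_fin _ fun o => ed_allI (fun M E (c : Fin 3 × Ix Q L T C → ℕ) n =>
      (∀ σ, c (2, σ) = 0) → FE iN e E (S.s o) (fun σ => c (0, σ)) →
      FE iN e E (S.t o) (fun σ => c (1, σ)) → 0 < tot (fun σ => c (0, σ)) →
      0 < tot (fun σ => c (1, σ)) → tot (fun σ => c (0, σ)) + tot (fun σ => c (1, σ)) ≤ n →
      (∃ z, z < M ∧ z = Nat.pair (tot (fun σ => c (0, σ))) (tot (fun σ => c (1, σ))) ∧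
        z ∈ posCompl (S.D o)) ∨
      JE iO e E o (fun σ => c (0, σ)) (fun σ => c (1, σ)) (fun σ => c (2, σ))) fun p => ?_
    have g1 := fd_z (fun σ : Ix Q L T C => p (2, σ))
    have g2 := fd_fe iN e (S.s o) (fun σ => p (0, σ))
    have g3 := fd_fe iN e (S.t o) (fun σ => p (1, σ))
    have g4 := fd_z (fun σ : Ix Q L T C => p (0, σ))
    have g5 := fd_z (fun σ : Ix Q L T C => p (1, σ))
    have g6 := fd_sum_le (((Finset.univ : Finset (Ix Q L T C)).toList.map fun σ => p (0, σ)) ++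
      ((Finset.univ : Finset (Ix Q L T C)).toList.map fun σ => p (1, σ))) 0
    have g7 := ed_pair (hD o) ((Finset.univ : Finset (Ix Q L T C)).toList.map fun σ => p (0, σ))
      ((Finset.univ : Finset (Ix Q L T C)).toList.map fun σ => p (1, σ))
    have g8 := fd_je iO e o (fun σ => p (0, σ)) (fun σ => p (1, σ)) (fun σ => p (2, σ))
    refine (ED.or (g1.and (g2.and (g3.and (g4.not.and (g5.not.and g6))))).not.ed
      (g7.or g8.ed)).congr fun M E v _ => ?_
    rw [fsum_eq, fsum_eq, List.map_append, List.sum_append, fsum_eq, fsum_eq]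
    have ht : ∀ f : Ix Q L T C → ℕ, 0 < tot f ↔ ¬ ∀ σ, f σ = 0 := by
      intro f
      unfold tot
      rw [Nat.pos_iff_ne_zero, ne_eq, Finset.sum_eq_zero_iff]
      simp
    rw [ht, ht]
    unfold tot
    constructor
    · intro h a1 a2 a3 a4 a5 a6
      rcases h with h | h
      · exact absurd ⟨a1, a2, a3, a4, a5, a6⟩ h
      · exact h
    · intro h
      rw [or_iff_not_imp_left, not_not]
      rintro ⟨a1, a2, a3, a4, a5, a6⟩
      exact h a1 a2 a3 a4 a5 a6
  have h3 : FD (fun M E v => ∀ (o : O) (τ : Ix Q L T C),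
      ∀ c : (Fin 6 × Ix Q L T C) ⊕ (Ix Q L T C × T) → ℕ, Lt M c →
      JE iO e E o (fun σ => c (Sum.inl (0, σ))) (fun σ => c (Sum.inl (1, σ)))
        (fun σ => c (Sum.inl (2, σ))) →
      Step S K o τ (fun i => c (Sum.inr i)) (fun σ => c (Sum.inl (0, σ)))
        (fun σ => c (Sum.inl (1, σ))) (fun σ => c (Sum.inl (2, σ))) (fun σ => c (Sum.inl (3, σ)))
        (fun σ => c (Sum.inl (4, σ))) (fun σ => c (Sum.inl (5, σ))) →
      JE iO e E o (fun σ => c (Sum.inl (3, σ))) (fun σ => c (Sum.inl (4, σ)))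
        (fun σ => c (Sum.inl (5, σ)))) :=
    fd_fin _ fun o => fd_fin _ fun τ => fd_allI (fun M E
      (c : (Fin 6 × Ix Q L T C) ⊕ (Ix Q L T C × T) → ℕ) _ =>
      JE iO e E o (fun σ => c (Sum.inl (0, σ))) (fun σ => c (Sum.inl (1, σ)))
        (fun σ => c (Sum.inl (2, σ))) →
      Step S K o τ (fun i => c (Sum.inr i)) (fun σ => c (Sum.inl (0, σ)))
        (fun σ => c (Sum.inl (1, σ))) (fun σ => c (Sum.inl (2, σ))) (fun σ => c (Sum.inl (3, σ)))
        (fun σ => c (Sum.inl (4, σ))) (fun σ => c (Sum.inl (5, σ))) →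
      JE iO e E o (fun σ => c (Sum.inl (3, σ))) (fun σ => c (Sum.inl (4, σ)))
        (fun σ => c (Sum.inl (5, σ)))) fun p =>
      (fd_je iO e o _ _ _).imp ((fd_step S K hcp o τ _ _ _ _ _ _ _).imp (fd_je iO e o _ _ _))
  have h4 : FD (fun M E v => ∀ o : O, ∀ c : Fin 4 × Ix Q L T C → ℕ, Lt M c →
      (∀ σ, c (1, σ) = 0) → JE iO e E o (fun σ => c (0, σ)) (fun σ => c (1, σ))
        (fun σ => c (2, σ)) → Fn S o (fun σ => c (0, σ)) (fun σ => c (2, σ)) (fun σ => c (3, σ)) →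
      FE iN e E (S.u o) (fun σ => c (3, σ))) :=
    fd_fin _ fun o => fd_allI (fun M E (c : Fin 4 × Ix Q L T C → ℕ) _ =>
      (∀ σ, c (1, σ) = 0) → JE iO e E o (fun σ => c (0, σ)) (fun σ => c (1, σ))
        (fun σ => c (2, σ)) → Fn S o (fun σ => c (0, σ)) (fun σ => c (2, σ)) (fun σ => c (3, σ)) →
      FE iN e E (S.u o) (fun σ => c (3, σ))) fun p =>
      (fd_z _).imp ((fd_je iO e o _ _ _).imp ((fd_fn S o _ _ _).imp (fd_fe iN e (S.u o) _)))
  refine (h1.ed.and (h2.and (h3.ed.and h4.ed))).congr fun M E v _ => ?_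
  unfold Closed
  refine and_congr Iff.rfl (and_congr ?_ (and_congr ?_ ?_))
  · refine forall_congr' fun o => ⟨fun h a b d ha hb hd => ?_, fun h c hc => ?_⟩
    · exact h (fun x => (![a, b, d] : Fin 3 → Ix Q L T C → ℕ) x.1 x.2) (by
        rintro ⟨i, σ⟩
        fin_cases i
        · exact ha σ
        · exact hb σ
        · exact hd σ)
    · exact h _ _ _ (fun σ => hc _) (fun σ => hc _) (fun σ => hc _)
  · refine forall_congr' fun o => forall_congr' fun τ =>
      ⟨fun h m a b d a' b' d' hm ha hb hd ha' hb' hd' => ?_, fun h c hc => ?_⟩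
    · exact h (Sum.elim (fun x => (![a, b, d, a', b', d'] : Fin 6 → Ix Q L T C → ℕ) x.1 x.2) m) (by
        rintro (⟨i, σ⟩ | i)
        · fin_cases i
          · exact ha σ
          · exact hb σ
          · exact hd σ
          · exact ha' σ
          · exact hb' σ
          · exact hd' σ
        · exact hm i)
    · exact h _ _ _ _ _ _ _ (fun σ => hc _) (fun σ => hc _) (fun σ => hc _) (fun σ => hc _)
        (fun σ => hc _) (fun σ => hc _) (fun σ => hc _)
  · refine forall_congr' fun o => ⟨fun h a b d c ha hb hd hc => ?_, fun h c hc => ?_⟩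
    · exact h (fun x => (![a, b, d, c] : Fin 4 → Ix Q L T C → ℕ) x.1 x.2) (by
        rintro ⟨i, σ⟩
        fin_cases i
        · exact ha σ
        · exact hb σ
        · exact hd σ
        · exact hc σ)
    · exact h _ _ _ _ (fun σ => hc _) (fun σ => hc _) (fun σ => hc _) (fun σ => hc _)

end Pool.Agent.H8.VR
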