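import Pool.Agent.H8.VR.Targets

/-!
# From formulas and grammars to composition systems
-/

set_option autoImplicit false

namespace Pool.Agent.H8.VR

open Pool.Agent.H69.Sp Pool.Agent.H69.Mt Classical

section
variable {N Q : Type}

/-- the composition system of a grammar -/
noncomputable def Gram.sg (G : Gram N Q) (m B : ℕ) (X : Type) :
    Sg N Q (Lab B X) (Ty B) (Fin G.ops.length) where
  pt s q l := ∃ x ∈ G.pts, x.s = s ∧ x.q = q ∧ (∀ i < m, (bit l.1 i ↔ x.un i)) ∧
    ∀ i < m, (bit l.2.1 i ↔ x.lp i)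
  s o := (G.ops.get o).s
  t o := (G.ops.get o).t
  u o := (G.ops.get o).u
  f o := (G.ops.get o).f
  g o := (G.ops.get o).g
  al o p q θ := ∀ i < m, (bit θ.1 i ↔ (G.ops.get o).l i p q) ∧ (bit θ.2 i ↔ (G.ops.get o).r i p q)
  D o := (G.ops.get o).D
  sw θ := (θ.2, θ.1)
  sw_sw _ := rfl

variable {A : Type} {G : Gram N Q} {m B : ℕ} {X : Type}

theorem RfL_self (lam : A → Lab B X) (th : A → A → Ty B) (i : ℕ) (a : A) :
    RfL lam th i a a ↔ bit (lam a).2.1 i := by
  simp [RfL]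

theorem RfL_ne (lam : A → Lab B X) (th : A → A → Ty B) (i : ℕ) {a b : A} (h : a ≠ b) :
    RfL lam th i a b ↔ bit (th a b).1 i := by
  simp [RfL, h]

theorem gen_congr {P P' : ℕ → A → Prop} {R R' : ℕ → A → A → Prop}
    (hP : ∀ i < m, ∀ a, (P i a ↔ P' i a)) (hR : ∀ i < m, ∀ a b, (R i a b ↔ R' i a b))
    {s : N} {Y : Set A} {c : A → Q} (h : G.Gen m P R s Y c) : G.Gen m P' R' s Y c := by
  induction h with
  | pt x hx a c hc h1 h2 =>
    exact Gram.Gen.pt x hx a c hc (fun i hi => (hP i hi a).symm.trans (h1 i hi))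
      fun i hi => (hR i hi a a).symm.trans (h2 i hi)
  | op o ho Y Z c c₁ c₂ h₁ h₂ hd hD h3 hX hY ih1 ih2 =>
    exact Gram.Gen.op o ho Y Z c c₁ c₂ ih1 ih2 hd hD (fun a ha b hb i hi =>
      ⟨(hR i hi a b).symm.trans (h3 a ha b hb i hi).1,
        (hR i hi b a).symm.trans (h3 a ha b hb i hi).2⟩) hX hY

theorem gen_iff (lam : A → Lab B X) (th : A → A → Ty B) (hS : Sym (G.sg m B X) th) (s : N)
    (Y : Set A) (c : A → Q) :
    G.Gen m (PfL lam) (RfL lam th) s Y c ↔ (G.sg m B X).Gen lam th s Y c := by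
  constructor
  · intro h
    induction h with
    | pt x hx a c hc h1 h2 =>
      exact Sg.Gen.pt (S := G.sg m B X) x.s a c ⟨x, hx, rfl, hc.symm, fun i hi => h1 i hi,
        fun i hi => (RfL_self lam th i a).symm.trans (h2 i hi)⟩
    | op o ho Y Z c c₁ c₂ h₁ h₂ hd hD h3 hX hY ih1 ih2 =>
      obtain ⟨j, rfl⟩ := List.mem_iff_get.1 ho
      refine Sg.Gen.op (S := G.sg m B X) j Y Z c c₁ c₂ ih1 ih2 hd hD ?_ hX hY
      intro a ha b hb i hi
      have hab : a ≠ b := fun e => Set.disjoint_left.1 hd ha (e ▸ hb)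
      refine ⟨(RfL_ne lam th i hab).symm.trans (h3 a ha b hb i hi).1, ?_⟩
      have h4 := (RfL_ne lam th i hab.symm).symm.trans (h3 a ha b hb i hi).2
      rw [hS a b hab] at h4
      exact h4
  · intro h
    induction h with
    | pt s a c h =>
      obtain ⟨x, hx, rfl, h1, h2, h3⟩ := h
      exact Gram.Gen.pt x hx a c h1.symm (fun i hi => h2 i hi)
        fun i hi => (RfL_self lam th i a).trans (h3 i hi)
    | op o Y Z c c₁ c₂ h₁ h₂ hd hg ha hX hY ih1 ih2 =>
      refine Gram.Gen.op (G := G) (m := m) (P := PfL lam) (R := RfL lam th) (G.ops.get o)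
        (List.get_mem _ _) Y Z c c₁ c₂ ih1 ih2 hd hg ?_ hX hY
      intro a ha' b hb i hi
      have hab : a ≠ b := fun e => Set.disjoint_left.1 hd ha' (e ▸ hb)
      refine ⟨(RfL_ne lam th i hab).trans (ha a ha' b hb i hi).1, ?_⟩
      rw [RfL_ne lam th i hab.symm, hS a b hab]
      exact (ha a ha' b hb i hi).2

end

theorem pf_n1 (hEV : T_EV) (hGE : T_GE) (hSC : T_SC) (hCL : T_CL) (hLO : T_LO) (hOK : T_OK)
    (hCP : T_CP) : T_N1 := by
  intro N Q _ _ G m s₀ φ
  obtain ⟨C, hC, K, hK, hF⟩ := hCP φ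
  have hfin : Finite φ.clo.Bt := (hGE φ.clo).2.1
  letI hX : Fintype φ.clo.Bt := Fintype.ofFinite _
  set B := max φ.bd m with hB
  have hmB : m ≤ B := le_max_right _ _
  have hbB : φ.bd ≤ B := le_max_left _ _
  refine ⟨Q, Lab B φ.clo.Bt, Ty B, C, Fin G.ops.length, Fintype.ofFinite _, inferInstance,
    inferInstance, hC, inferInstance, inferInstance, G.sg m B φ.clo.Bt, K,
    fun σ => OkF K φ.clo id σ ∧ ev1 φ.clo id σ.1, hF,
    fun o => ⟨G.ops.get o, List.get_mem _ _, rfl⟩, fun n => ?_⟩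
  refine and_congr_right fun hn => ?_
  have : Nonempty (Fin n) := ⟨⟨0, hn⟩⟩
  constructor
  · rintro ⟨P, R, ⟨c, hc⟩, hφ⟩
    obtain ⟨g, hg⟩ := (hGE φ.clo).1 (Fin n) (fun i a => i < B ∧ P i a) (fun i a b => i < B ∧ R i a b)
    set lam : Fin n → Lab B φ.clo.Bt := fun a =>
      (fun i => decide (P i a), fun i => decide (R i a a), g a) with hlam
    set th : Fin n → Fin n → Ty B := fun a b =>
      (fun i => decide (R i a b), fun i => decide (R i b a)) with hth
    have hPf : PfL lam = fun i a => i < B ∧ P i a := by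
      funext i a
      simp only [PfL, bit, hlam, decide_eq_true_eq, exists_prop]
    have hRf : RfL lam th = fun i a b => i < B ∧ R i a b := by
      funext i a b
      by_cases hab : a = b
      · subst hab
        rw [eq_iff_iff, RfL_self]
        simp only [bit, hlam, decide_eq_true_eq, exists_prop]
      · rw [eq_iff_iff, RfL_ne _ _ _ hab]
        simp only [bit, hth, decide_eq_true_eq, exists_prop]
    have hS : Sym (G.sg m B φ.clo.Bt) th := fun a b _ => rfl
    rw [← hPf, ← hRf] at hg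
    refine ⟨lam, th, c, hS, (gen_iff lam th hS s₀ _ c).1 (gen_congr ?_ ?_ hc), fun a => ⟨?_, ?_⟩⟩
    · intro i hi a
      rw [hPf]
      exact ⟨fun h => ⟨by omega, h⟩, fun h => h.2⟩
    · intro i hi a b
      rw [hRf]
      exact ⟨fun h => ⟨by omega, h⟩, fun h => h.2⟩
    · exact (hOK B φ.clo.Bt (Fin n) C K φ.clo id lam th hK (fun a b _ => rfl)).1 hg a
    · have h1 : ∀ v : Bool → Fin n, φ.Sat (PfL lam) (RfL lam th) v := by
        intro v
        refine (hSC φ (Fin n) P _ R _ ?_ ?_ v).1 (hφ v)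
        · intro i hi a
          rw [hPf]
          exact ⟨fun h => ⟨by omega, h⟩, fun h => h.2⟩
        · intro i hi a b
          rw [hRf]
          exact ⟨fun h => ⟨by omega, h⟩, fun h => h.2⟩
      have h2 := (hCL φ (Fin n) (PfL lam) (RfL lam th)).1.1 h1 a
      rw [hEV φ.clo (Fin n) _ _ g hg] at h2
      exact (hLO B φ.clo.Bt (Fin n) φ.clo id lam th false a a).2.1 h2
  · rintro ⟨lam, th, c, hS, hG, hOk⟩
    refine ⟨PfL lam, RfL lam th, ⟨c, (gen_iff lam th hS s₀ _ c).2 hG⟩, ?_⟩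
    have hg : φ.clo.Good (PfL lam) (RfL lam th) (fun a => id (lam a).2.2) :=
      (hOK B φ.clo.Bt (Fin n) C K φ.clo id lam th hK (fun a b h => hS a b h)).2 fun a => (hOk a).1
    refine (hCL φ (Fin n) (PfL lam) (RfL lam th)).1.2 fun a => ?_
    rw [hEV φ.clo (Fin n) _ _ _ hg]
    exact (hLO B φ.clo.Bt (Fin n) φ.clo id lam th false a a).2.2 (hOk a).2

end Pool.Agent.H8.VR
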