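import Pool.Agent.H8.VR.Targets
import Pool.Agent.H8.VR.StepL

/-!
# The local form of correct bits
-/

set_option autoImplicit false

namespace Pool.Agent.H8.VR

open Pool.Agent.H69.Sp Pool.Agent.H69.Mt Classical

theorem cp_fs {ι C : Type} [Fintype ι] (K : Cp C) (P : ι → Prop) (x y : ι → ℕ)
    (h : ∀ p, K.cp (x p) = K.cp (y p)) : K.cp (fs P x) = K.cp (fs P y) := by
  unfold fs
  induction (Finset.univ.filter P) using Finset.induction_on with
  | empty => rfl
  | insert a s ha ih => rw [Finset.sum_insert ha, Finset.sum_insert ha, K.cp_add, K.cp_add, h, ih]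

theorem pf_ok (hLO : T_LO) : T_OK := by
  intro B X A C _ _ K φ
  induction φ with
  | un i v => intro π lam th _ _; exact ⟨fun _ _ => trivial, fun _ => trivial⟩
  | bi i v w => intro π lam th _ _; exact ⟨fun _ _ => trivial, fun _ => trivial⟩
  | eq v w => intro π lam th _ _; exact ⟨fun _ _ => trivial, fun _ => trivial⟩
  | neg φ ih => intro π lam th hK hS; exact ih π lam th hK hS
  | and φ ψ ih1 ih2 =>
    intro π lam th hK hS
    have h1 := ih1 (fun x => (π x).1) lam th hK.1 hS
    have h2 := ih2 (fun x => (π x).2) lam th hK.2 hS
    exact (and_congr h1 h2).trans forall_and.symm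
  | cnt k m r v φ ih =>
    intro π lam th hK hS
    obtain ⟨⟨W, hW⟩, hK'⟩ := hK
    have h1 := ih (fun x => (π x).2) lam th hK' hS
    have key : ∀ a, {b | φ.evA (PfL lam) (RfL lam th) (fun c => (π (lam c).2.2).2)
        (fun x => if x = v then b else a)}.ncard =
        fs (fun p : Lab B X × Ty B => ev2 φ (fun x => (π x).2) (lam a) p.1 p.2 v)
          (kn lam th Set.univ a) + ind (ev1 φ (fun x => (π x).2) (lam a)) := by
      intro a
      set E : A → Prop := fun b => φ.evA (PfL lam) (RfL lam th) (fun c => (π (lam c).2.2).2)
        (fun x => if x = v then b else a) with hE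
      have e1 : {b | E b}.ncard = num E := by
        rw [Set.ncard_eq_toFinset_card']
        unfold num
        congr 1
        ext b
        simp
      have e2 : num E = num (fun b => b ∈ insert a ({a}ᶜ : Set A) ∧ E b) := by
        refine num_congr fun b => ?_
        constructor
        · intro h
          refine ⟨?_, h⟩
          by_cases hb : b = a
          · exact Or.inl hb
          · exact Or.inr hb
        · exact fun h => h.2
      have e3 : num (fun b => b ∈ ({a}ᶜ : Set A) ∧ E b) =
          fs (fun p : Lab B X × Ty B => ev2 φ (fun x => (π x).2) (lam a) p.1 p.2 v)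
          (kn lam th Set.univ a) := by
        rw [num_congr (P' := fun b => b ≠ a ∧ ev2 φ (fun x => (π x).2) (lam a)
          ((lam b, th a b) : Lab B X × Ty B).1 ((lam b, th a b) : Lab B X × Ty B).2 v) ?_]
        · refine (num_fib (fun b => b ≠ a) (fun b => ((lam b, th a b) : Lab B X × Ty B))
            (fun p : Lab B X × Ty B => ev2 φ (fun x => (π x).2) (lam a) p.1 p.2 v)).trans ?_
          congr 1
          funext p
          unfold kn
          refine num_congr fun b => ?_
          rw [Prod.ext_iff]
          exact ⟨fun h => ⟨Set.mem_univ _, h⟩, fun h => h.2⟩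
        · intro b
          refine and_congr_right fun (hb : b ≠ a) => ?_
          exact (hLO B X A φ (fun x => (π x).2) lam th v a b).1 (Ne.symm hb) (hS a b (Ne.symm hb))
      rw [e1, e2, num_insert _ _ (by simp), e3]
      congr 1
      refine ind_congr ?_
      have h2 := (hLO B X A φ (fun x => (π x).2) lam th v a a).2
      rw [← h2, hE]
      simp only [ite_self]
    refine (and_congr h1 (forall_congr' fun a => ?_)).trans forall_and.symm
    constructor
    · intro h x hx
      refine h.trans ?_
      rw [key a, hW, hW, K.cp_add, K.cp_add, cp_fs K _ x (kn lam th Set.univ a) hx]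
      rfl
    · intro h
      refine (h (kn lam th Set.univ a) fun p => rfl).trans ?_
      rw [key a]
      rfl

end Pool.Agent.H8.VR
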