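import Pool.Agent.H8.VR.Cor
import Pool.Agent.H8.VR.N1
import Pool.Agent.H8.VR.OK
import Pool.Agent.H8.VR.FC
import Pool.Agent.H8.VR.TT
import Pool.Agent.H48.VR.CL
import Pool.Agent.H53.VR.CM
import Pool.Agent.H34.VR.FA
import Pool.Agent.H49.VR.FB
import Pool.Agent.H70.VR.FI
import Pool.Agent.H1.VR.FR
import Pool.Agent.H1.VR.FS
import Pool.Agent.H51.VR.GE
import Pool.Agent.H65.VR.GM
import Pool.Agent.H33.VR.IN
import Pool.Agent.H33.VR.RC
import Pool.Agent.H33.VR.RS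
import Pool.Agent.H59.VR.LO
import Pool.Agent.H74.VR.MM
import Pool.Agent.H19.VR.SY
import Pool.Agent.H19.VR.EV
import Pool.Agent.H19.VR.CP
import Pool.Agent.H60.VR.NE
import Pool.Agent.H60.VR.PO

/-!
# Context-free classes: all modules put together
-/

set_option autoImplicit false

namespace Pool.Agent.H8.VR

open Pool.Agent

theorem t_n1 : T_N1 :=
  pf_n1 H19.VR.pf_ev pf_GE H19.VR.pf_sc H48.VR.CL.cl H59.VR.pf_LO (pf_ok H59.VR.pf_LO)
    H19.VR.pf_cp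

theorem t_sy : T_SY :=
  H19.VR.pf_sy (H33.VR.pf_RC H65.VR.pf_GM H53.VR.t_CM H49.VR.pf_FB pf_tt) (H33.VR.pf_RS pf_tt)
    (H33.VR.pf_IN pf_tt) (H74.VR.pf_MM H65.VR.pf_GM H53.VR.t_CM pf_tt) pf_fc H1.VR.pf_FS
    H34.VR.pf_FA pf_tt

theorem t_vr : T_VR := H70.VR.fi t_sy t_n1

theorem t_all : T_ALL := pf_all t_vr H60.VR.pf_PO H1.VR.fr H60.VR.pf_NE

end Pool.Agent.H8.VR
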