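import Pool.Agent.H8.VR.Inst
import Pool.Agent.H69.VR.MGram

/-!
# Examples of context-free classes, with counting monadic second-order logic
-/

set_option autoImplicit false

namespace Pool.Agent.H8.VR

open Pool.Agent.H69.Sp Pool.Agent.H69.Mt Pool.Agent.H69.VR

/-- the sizes of the models of `Ψ` and `φ` in which `R 0` and `R 1` are the ancestor relation and the
document order of an ordered forest -/
def specFM (Ψ : MS) (φ : C2) : Set ℕ :=
  {n | 0 < n ∧ ∃ (P : ℕ → Fin n → Prop) (R : ℕ → Fin n → Fin n → Prop), OrdForest R ∧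
    (∀ (e : ℕ → Fin n) (V : ℕ → Set (Fin n)), Ψ.Sat P R e V) ∧ ∀ v : Bool → Fin n, φ.Sat P R v}

/-- the sizes of the models of `Ψ` and `φ` in which `R 0, …, R (k - 1)` are nested equivalence
relations -/
def specEM (k : ℕ) (Ψ : MS) (φ : C2) : Set ℕ :=
  {n | 0 < n ∧ ∃ (P : ℕ → Fin n → Prop) (R : ℕ → Fin n → Fin n → Prop), NestEq k R ∧
    (∀ (e : ℕ → Fin n) (V : ℕ → Set (Fin n)), Ψ.Sat P R e V) ∧ ∀ v : Bool → Fin n, φ.Sat P R v}

/-- `NLC k m R X c`: the structure with universe `X` and binary relations `R i`, `i < m`, with the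
colours `c` has an expression with `k` colours: one-element structures, and operations which put two
structures side by side, the relations between them depending only on the colours, and change the
colours by `f` and `g` afterwards. -/
inductive NLC {A : Type} (k m : ℕ) (R : ℕ → A → A → Prop) : Set A → (A → Fin k) → Prop
  | pt (a : A) (c : A → Fin k) : NLC k m R {a} c
  | op (X Y : Set A) (c c₁ c₂ : A → Fin k) (h₁ : NLC k m R X c₁) (h₂ : NLC k m R Y c₂)
      (hd : Disjoint X Y) (l r : ℕ → Fin k → Fin k → Prop) (f g : Fin k → Fin k)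
      (hR : ∀ a ∈ X, ∀ b ∈ Y, ∀ i < m,
        (R i a b ↔ l i (c₁ a) (c₂ b)) ∧ (R i b a ↔ r i (c₁ a) (c₂ b)))
      (hX : ∀ a ∈ X, c a = f (c₁ a)) (hY : ∀ b ∈ Y, c b = g (c₂ b)) : NLC k m R (X ∪ Y) c

/-- the sizes of the models of `Ψ` and `φ` in which the relations `R 0, …, R (m - 1)` have an
expression with `k` colours (NLC-width at most `k`) -/
def specWM (k m : ℕ) (Ψ : MS) (φ : C2) : Set ℕ :=
  {n | 0 < n ∧ ∃ (P : ℕ → Fin n → Prop) (R : ℕ → Fin n → Fin n → Prop),
    (∃ c, NLC k m R Set.univ c) ∧ (∀ (e : ℕ → Fin n) (V : ℕ → Set (Fin n)), Ψ.Sat P R e V) ∧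
      ∀ v : Bool → Fin n, φ.Sat P R v}

/-- the grammar of all expressions with `k` colours -/
noncomputable def cwG (k m : ℕ) : Gram Unit (Fin k) where
  pts := (Finset.univ : Finset (Fin k × (Fin m → Bool) × (Fin m → Bool))).toList.map fun x =>
    { s := (), q := x.1, un := fun i => ∃ h : i < m, x.2.1 ⟨i, h⟩ = true,
      lp := fun i => ∃ h : i < m, x.2.2 ⟨i, h⟩ = true }
  ops := (Finset.univ : Finset ((Fin m → Fin k → Fin k → Bool) × (Fin m → Fin k → Fin k → Bool) ×
      (Fin k → Fin k) × (Fin k → Fin k))).toList.map fun x =>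
    { s := (), t := (), u := (), l := fun i p q => ∃ h : i < m, x.1 ⟨i, h⟩ p q = true,
      r := fun i p q => ∃ h : i < m, x.2.1 ⟨i, h⟩ p q = true, f := x.2.2.1, g := x.2.2.2,
      D := {n | 0 < n} }

theorem nlc_ne {A : Type} {k m : ℕ} {R : ℕ → A → A → Prop} {X : Set A} {c : A → Fin k}
    (h : NLC k m R X c) : X.Nonempty := by
  induction h with
  | pt a c => exact Set.singleton_nonempty a
  | op X Y c c₁ c₂ h₁ h₂ hd l r f g hR hX hY ih1 ih2 => exact ih1.mono Set.subset_union_left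

theorem nlc_gen {A : Type} [Finite A] {k m : ℕ} {P : ℕ → A → Prop} {R : ℕ → A → A → Prop}
    {X : Set A} {c : A → Fin k} (h : NLC k m R X c) : (cwG k m).Gen m P R () X c := by
  classical
  induction h with
  | pt a c =>
    refine Gram.Gen.pt (G := cwG k m) (m := m) (P := P) (R := R)
      { s := (), q := c a, un := fun i => ∃ h : i < m, (fun j : Fin m => decide (P j a)) ⟨i, h⟩ = true,
        lp := fun i => ∃ h : i < m, (fun j : Fin m => decide (R j a a)) ⟨i, h⟩ = true } ?_ a c rfl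
      (fun i hi => by simp [hi]) (fun i hi => by simp [hi])
    exact List.mem_map.2 ⟨(c a, (fun j : Fin m => decide (P j a)), fun j : Fin m => decide (R j a a)),
      Finset.mem_toList.2 (Finset.mem_univ _), rfl⟩
  | op X Y c c₁ c₂ h₁ h₂ hd l r f g hR hX hY ih1 ih2 =>
    refine Gram.Gen.op (G := cwG k m) (m := m) (P := P) (R := R)
      { s := (), t := (), u := (),
        l := fun i p q => ∃ h : i < m, (fun (j : Fin m) p q => decide (l j p q)) ⟨i, h⟩ p q = true,
        r := fun i p q => ∃ h : i < m, (fun (j : Fin m) p q => decide (r j p q)) ⟨i, h⟩ p q = true,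
        f := f, g := g, D := {n | 0 < n} } ?_ X Y c c₁ c₂ ih1 ih2 hd ?_
      (fun a ha b hb i hi => by simp [hi, hR a ha b hb i hi]) hX hY
    · exact List.mem_map.2 ⟨((fun (j : Fin m) p q => decide (l j p q)),
        (fun (j : Fin m) p q => decide (r j p q)), f, g), Finset.mem_toList.2 (Finset.mem_univ _), rfl⟩
    · have h1 : 0 < X.ncard := (Set.ncard_pos X.toFinite).2 (nlc_ne h₁)
      have h2 := Nat.left_le_pair X.ncard Y.ncard
      exact lt_of_lt_of_le h1 h2

theorem gen_nlc {A : Type} {k m : ℕ} {P : ℕ → A → Prop} {R : ℕ → A → A → Prop}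
    {X : Set A} {c : A → Fin k} {s : Unit} (h : (cwG k m).Gen m P R s X c) : NLC k m R X c := by
  induction h with
  | pt x hx a c hc hP hR => exact NLC.pt a c
  | op o ho X Y c c₁ c₂ h₁ h₂ hd hD hR hX hY ih1 ih2 =>
    exact NLC.op X Y c c₁ c₂ ih1 ih2 hd o.l o.r o.f o.g hR hX hY

theorem specWM_eq (k m : ℕ) (Ψ : MS) (φ : C2) : specWM k m Ψ φ = specM (cwG k m) m () Ψ φ := by
  ext n
  refine and_congr_right fun _ => exists_congr fun P => exists_congr fun R => ?_
  refine and_congr_left fun _ => ⟨?_, ?_⟩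
  · rintro ⟨c, hc⟩; exact ⟨c, nlc_gen hc⟩
  · rintro ⟨c, hc⟩; exact ⟨c, gen_nlc hc⟩

theorem specFM_eq (h : T_FR) (Ψ : MS) (φ : C2) : specFM Ψ φ = specM forG 2 true Ψ φ := by
  ext n
  refine and_congr_right fun hn => exists_congr fun P => exists_congr fun R => ?_
  haveI : Nonempty (Fin n) := ⟨⟨0, hn⟩⟩
  exact and_congr_left fun _ => h (Fin n) P R

theorem specEM_eq (h : T_NE) (k : ℕ) (Ψ : MS) (φ : C2) :
    specEM k Ψ φ = specM (neG k) k (Fin.last k) Ψ φ := by
  ext n
  refine and_congr_right fun hn => exists_congr fun P => exists_congr fun R => ?_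
  haveI : Nonempty (Fin n) := ⟨⟨0, hn⟩⟩
  exact and_congr_left fun _ => h k (Fin n) P R

/-- the theorem of the hand-in -/
def T_ALL : Prop :=
  (∀ (N Q : Type) [Finite N] [Finite Q] (G : Gram N Q),
    (∀ o ∈ G.ops, IsSpectrum o.D ∧ IsSpectrum (posCompl o.D)) →
      ∀ (m : ℕ) (s₀ : N) (Ψ : MS) (φ : C2), Ψ.Below m →
        IsSpectrum (specM G m s₀ Ψ φ) ∧ IsSpectrum (posCompl (specM G m s₀ Ψ φ))) ∧
  (∀ (k m : ℕ) (Ψ : MS) (φ : C2), Ψ.Below m →
    IsSpectrum (specWM k m Ψ φ) ∧ IsSpectrum (posCompl (specWM k m Ψ φ))) ∧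
  (∀ (Ψ : MS) (φ : C2), Ψ.Below 2 →
    IsSpectrum (specFM Ψ φ) ∧ IsSpectrum (posCompl (specFM Ψ φ))) ∧
  ∀ (k : ℕ) (Ψ : MS) (φ : C2), Ψ.Below k →
    IsSpectrum (specEM k Ψ φ) ∧ IsSpectrum (posCompl (specEM k Ψ φ))

theorem pf_all (hVR : T_VR) (hPO : T_PO) (hFR : T_FR) (hNE : T_NE) : T_ALL := by
  have hM := vrm hVR
  refine ⟨fun N Q _ _ G hD m s₀ Ψ φ hΨ => hM N Q G hD m s₀ Ψ φ hΨ, ?_, ?_, ?_⟩
  · intro k m Ψ φ hΨ
    rw [specWM_eq]
    refine hM Unit (Fin k) (cwG k m) ?_ m () Ψ φ hΨ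
    intro o ho
    obtain ⟨x, -, rfl⟩ := List.mem_map.1 ho
    exact hPO
  · intro Ψ φ hΨ
    rw [specFM_eq hFR]
    refine hM Bool Unit forG ?_ 2 true Ψ φ hΨ
    intro o ho
    simp only [forG, List.mem_cons, List.not_mem_nil, or_false] at ho
    rcases ho with rfl | rfl <;> exact hPO
  · intro k Ψ φ hΨ
    rw [specEM_eq hNE]
    refine hM (Fin (k + 1)) Unit (neG k) ?_ k (Fin.last k) Ψ φ hΨ
    intro o ho
    simp only [neG, List.mem_flatMap, List.mem_map] at ho
    obtain ⟨a, -, b, -, c, -, u, -, rfl⟩ := ho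
    exact hPO

end Pool.Agent.H8.VR
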