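import Pool.Agent.H8.VR.Targets
import Pool.Agent.H58.TW.FA
import Pool.Agent.H58.TW.FS
import Pool.Agent.H58.TW.FT

/-!
# Tools: definability for finite families of numbers
-/

set_option autoImplicit false

namespace Pool.Agent.H8.VR

open Pool.Agent.H69.Sp Pool.Agent.H69.Mt Classical
open Pool.Agent.H16.TO (updN)
open Pool.Agent.H58.TW (pf_fi pf_fa pf_fs fdS fd_sum fd_sum_succ fsum_eq map_upd le_sum_of_mem
  updN_zero updN_succ updN_congr)

theorem fd_fin {ι : Type} [Finite ι] (P : ι → Pd) (h : ∀ i, FD (P i)) :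
    FD (fun N E v => ∀ i, P i N E v) := (pf_fi ι P h).1

theorem fd_exf {ι : Type} [Finite ι] (P : ι → Pd) (h : ∀ i, FD (P i)) :
    FD (fun N E v => ∃ i, P i N E v) := (pf_fi ι P h).2

theorem ed_lt (P : ℕ → Pd) (h : ∀ c, ED (P c)) (n : ℕ) : ED (fun N E v => ∀ c < n, P c N E v) := by
  induction n with
  | zero => exact FD.tt.ed.congr fun N E v _ => by simp
  | succ n ih =>
    refine (ih.and (h n)).congr fun N E v _ => ?_
    constructor
    · rintro ⟨h1, h2⟩ c hc
      rcases Nat.lt_or_ge c n with h3 | h3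
      · exact h1 c h3
      · have : c = n := by omega
        exact this ▸ h2
    · intro h1
      exact ⟨fun c hc => h1 c (by omega), h1 n (by omega)⟩

theorem ed_fin {ι : Type} [Finite ι] (P : ι → Pd) (h : ∀ i, ED (P i)) :
    ED (fun N E v => ∀ i, P i N E v) := by
  obtain ⟨n, ⟨e⟩⟩ := Finite.exists_equiv_fin ι
  have h1 : ∀ c : ℕ, ED (fun N E v => ∀ hc : c < n, P (e.symm ⟨c, hc⟩) N E v) := by
    intro c
    by_cases hc : c < n
    · exact (h (e.symm ⟨c, hc⟩)).congr fun N E v _ => ⟨fun h2 _ => h2, fun h2 => h2 hc⟩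
    · exact FD.tt.ed.congr fun N E v _ => ⟨fun _ h2 => (hc h2).elim, fun _ => trivial⟩
  refine (ed_lt _ h1 n).congr fun N E v _ => ?_
  constructor
  · intro h2 i
    have h3 := h2 (e i).val (e i).isLt (e i).isLt
    rwa [show e.symm ⟨(e i).val, (e i).isLt⟩ = i from e.symm_apply_apply i] at h3
  · intro h2 c _ hc
    exact h2 _

theorem ed_fa (P : Pd) (b k : ℕ) (hP : ED P) :
    ED (fun N E v => ∀ f : ℕ → ℕ, (∀ i, f i < N) → P N E (updN v b k f)) := by
  induction k generalizing P with
  | zero =>
    refine hP.congr fun N E v hv => ?_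
    constructor
    · intro h f _
      rw [updN_zero]
      exact h
    · intro h
      have h1 := h (fun _ => v 0) (fun _ => hv 0)
      rwa [updN_zero] at h1
  | succ k ih =>
    refine (ih _ (ED.all (b + k) hP)).congr fun N E v hv => ?_
    constructor
    · intro h f hf
      rw [updN_succ]
      exact h f hf (f k) (hf k)
    · intro h f hf a ha
      have h1 := h (Function.update f k a) (fun i => by
        by_cases hi : i = k
        · subst hi
          rw [Function.update_self]
          exact ha
        · rw [Function.update_of_ne hi]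
          exact hf i)
      rw [updN_succ, Function.update_self, updN_congr v b k (Function.update f k a) f
        (fun i hi => Function.update_of_ne (by omega) _ _)] at h1
      exact h1

theorem allI_aux {ι : Type} [Fintype ι]
    (P : ℕ → (ℕ → List ℕ → Prop) → (ι → ℕ) → ℕ → Prop) (N : ℕ) (E : ℕ → List ℕ → Prop)
    (v : ℕ → ℕ) (hv : ∀ x, v x < N) :
    (∀ f : ℕ → ℕ, (∀ i, f i < N) → P N E
      (fun i => updN v 1 (Fintype.card ι) f (1 + (Fintype.equivFin ι i).val))
      (updN v 1 (Fintype.card ι) f 0)) ↔ ∀ c : ι → ℕ, Lt N c → P N E c (v 0) := by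
  have hu0 : ∀ f : ℕ → ℕ, updN v 1 (Fintype.card ι) f 0 = v 0 := by
    intro f
    unfold updN
    rw [if_neg (by omega)]
  have hu : ∀ (f : ℕ → ℕ) (i : ι), updN v 1 (Fintype.card ι) f (1 + (Fintype.equivFin ι i).val) =
      f (Fintype.equivFin ι i).val := by
    intro f i
    unfold updN
    have := (Fintype.equivFin ι i).isLt
    rw [if_pos (by omega), Nat.add_sub_cancel_left]
  constructor
  · intro h c hc
    have h1 := h (fun j => if hj : j < Fintype.card ι then c ((Fintype.equivFin ι).symm ⟨j, hj⟩)
      else v 0) (fun j => by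
        by_cases hj : j < Fintype.card ι
        · rw [dif_pos hj]; exact hc _
        · rw [dif_neg hj]; exact hv 0)
    rw [hu0] at h1
    have h2 : (fun i => updN v 1 (Fintype.card ι) (fun j => if hj : j < Fintype.card ι then
        c ((Fintype.equivFin ι).symm ⟨j, hj⟩) else v 0) (1 + (Fintype.equivFin ι i).val)) = c := by
      funext i
      rw [hu, dif_pos (Fintype.equivFin ι i).isLt]
      congr 1
      exact (Fintype.equivFin ι).symm_apply_apply i
    rwa [h2] at h1
  · intro h f hf
    rw [hu0]
    have h2 : (fun i => updN v 1 (Fintype.card ι) f (1 + (Fintype.equivFin ι i).val)) =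
        fun i => f (Fintype.equivFin ι i).val := funext fun i => hu f i
    rw [h2]
    exact h _ fun i => hf _

theorem fd_allI {ι : Type} [Fintype ι] (P : ℕ → (ℕ → List ℕ → Prop) → (ι → ℕ) → ℕ → Prop)
    (h : ∀ p : ι → ℕ, FD (fun N E v => P N E (fun i => v (p i)) (v 0))) :
    FD (fun N E v => ∀ c : ι → ℕ, Lt N c → P N E c (v 0)) :=
  (pf_fa _ 1 (Fintype.card ι) (h fun i => 1 + (Fintype.equivFin ι i).val)).congr
    fun N E v hv => allI_aux P N E v hv

theorem ed_allI {ι : Type} [Fintype ι] (P : ℕ → (ℕ → List ℕ → Prop) → (ι → ℕ) → ℕ → Prop)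
    (h : ∀ p : ι → ℕ, ED (fun N E v => P N E (fun i => v (p i)) (v 0))) :
    ED (fun N E v => ∀ c : ι → ℕ, Lt N c → P N E c (v 0)) :=
  (ed_fa _ 1 (Fintype.card ι) (h fun i => 1 + (Fintype.equivFin ι i).val)).congr
    fun N E v hv => allI_aux P N E v hv

theorem fd_sum_le (L : List ℕ) (x : ℕ) : FD (fun _ _ v => (L.map v).sum ≤ v x) := by
  have hy : ∀ j ∈ L, j < x + L.sum + 1 := by
    intro j hj
    have := le_sum_of_mem L j hj
    omega
  have hx : x ≠ x + L.sum + 1 := by omega
  refine (FD.ex (x + L.sum + 1) ((fd_sum L (x + L.sum + 1)).and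
    (FD.le (x + L.sum + 1) x))).congr fun N E v hv => ?_
  constructor
  · rintro ⟨a, ha, h1, h2⟩
    rw [Function.update_self, map_upd L v _ a hy] at h1
    rw [Function.update_self, Function.update_of_ne hx] at h2
    omega
  · intro h
    refine ⟨(L.map v).sum, lt_of_le_of_lt h (hv x), ?_, ?_⟩
    · rw [Function.update_self, map_upd L v _ _ hy]
    · rw [Function.update_self, Function.update_of_ne hx]
      exact h

theorem fd_pair (x y z : ℕ) : FD (fun _ _ v => v z = Nat.pair (v x) (v y)) := by
  have hw1 : x ≠ x + y + z + 1 := by omega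
  have hw2 : y ≠ x + y + z + 1 := by omega
  have hw3 : z ≠ x + y + z + 1 := by omega
  have hu1 : x ≠ x + y + z + 2 := by omega
  have hu2 : y ≠ x + y + z + 2 := by omega
  have hu3 : z ≠ x + y + z + 2 := by omega
  have h12 : x + y + z + 1 ≠ x + y + z + 2 := by omega
  refine (((FD.lt x y).and (FD.ex (x + y + z + 1) ((FD.mul y y (x + y + z + 1)).and
    (FD.add (x + y + z + 1) x z)))).or ((FD.lt x y).not.and (FD.ex (x + y + z + 1)
      (FD.ex (x + y + z + 2) ((FD.mul x x (x + y + z + 1)).and
        ((FD.add (x + y + z + 1) x (x + y + z + 2)).and (FD.add (x + y + z + 2) y z))))))).congr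
    fun N E v hv => ?_
  simp only [Function.update_self, Function.update_of_ne hw1, Function.update_of_ne hw2,
    Function.update_of_ne hw3, Function.update_of_ne hu1, Function.update_of_ne hu2,
    Function.update_of_ne hu3, Function.update_of_ne h12]
  unfold Nat.pair
  have hz := hv z
  by_cases h : v x < v y
  · rw [if_pos h]
    constructor
    · rintro (⟨_, a, _, h1, h2⟩ | ⟨h1, _⟩)
      · rw [← h2, ← h1]
      · exact absurd h h1
    · intro h1
      exact Or.inl ⟨h, v y * v y, by omega, rfl, h1.symm⟩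
  · rw [if_neg h]
    constructor
    · rintro (⟨h1, _⟩ | ⟨_, a, _, b, _, h1, h2, h3⟩)
      · exact absurd h1 h
      · rw [← h3, ← h2, ← h1]
    · intro h1
      exact Or.inr ⟨h, v x * v x, by omega, v x * v x + v x, by omega, rfl, rfl, h1.symm⟩

theorem ed_pair {X : Set ℕ} (hX : IsSpectrum X) (L L' : List ℕ) :
    ED (fun N _ v => ∃ z, z < N ∧ z = Nat.pair (L.map v).sum (L'.map v).sum ∧ z ∈ X) := by
  set b := L.sum + L'.sum + 1 with hb
  have hL : ∀ j ∈ L, j < b := by
    intro j hj
    have := le_sum_of_mem L j hj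
    omega
  have hL' : ∀ j ∈ L', j < b := by
    intro j hj
    have := le_sum_of_mem L' j hj
    omega
  have hu : ∀ (l : List ℕ) (v : ℕ → ℕ) (p q r : ℕ), (∀ j ∈ l, j < b) → l.map
      (Function.update (Function.update (Function.update v b p) (b + 1) q) (b + 2) r) = l.map v := by
    intro l v p q r hl
    refine List.map_congr_left fun j hj => ?_
    have := hl j hj
    rw [Function.update_of_ne (by omega), Function.update_of_ne (by omega),
      Function.update_of_ne (by omega)]
  refine (ED.ex b (ED.ex (b + 1) (ED.ex (b + 2) ((((fd_sum L b).and (fd_sum L' (b + 1))).and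
    (fd_pair b (b + 1) (b + 2))).ed.and (mem_ed hX (b + 2)))))).congr fun N E v hv => ?_
  have h1 : b ≠ b + 1 := by omega
  have h2 : b ≠ b + 2 := by omega
  have h3 : b + 1 ≠ b + 2 := by omega
  constructor
  · rintro ⟨p, hp, q, hq, r, hr, ⟨⟨e1, e2⟩, e3⟩, e4⟩
    rw [hu L v p q r hL] at e1
    rw [hu L' v p q r hL'] at e2
    simp only [Function.update_self, Function.update_of_ne h1, Function.update_of_ne h2,
      Function.update_of_ne h3] at e1 e2 e3 e4
    exact ⟨r, hr, by rw [e1, e2]; exact e3, e4⟩
  · rintro ⟨r, hr, e3, e4⟩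
    refine ⟨(L.map v).sum, ?_, (L'.map v).sum, ?_, r, hr, ⟨⟨?_, ?_⟩, ?_⟩, ?_⟩
    · have := Nat.left_le_pair (L.map v).sum (L'.map v).sum
      omega
    · have := Nat.right_le_pair (L.map v).sum (L'.map v).sum
      omega
    · rw [hu L v _ _ _ hL]
      simp only [Function.update_self, Function.update_of_ne h1, Function.update_of_ne h2]
    · rw [hu L' v _ _ _ hL']
      simp only [Function.update_self, Function.update_of_ne h3]
    · simp only [Function.update_self, Function.update_of_ne h1, Function.update_of_ne h2,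
        Function.update_of_ne h3]
      exact e3
    · simp only [Function.update_self]
      exact e4

end Pool.Agent.H8.VR
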