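import Pool.Agent.H69.Sp.Model

/-!
# Two-variable logic with counting over context-free classes of structures
-/

set_option autoImplicit false

namespace Pool.Agent.H8.VR

open Pool.Agent.H69.Sp

/-- Formulas of two-variable logic with threshold and modulo counting quantifiers: the variables are
`false` and `true`, the relation symbols are indexed by numbers. -/
inductive C2 : Type
  | un (i : ℕ) (v : Bool) : C2
  | bi (i : ℕ) (v w : Bool) : C2
  | eq (v w : Bool) : C2
  | neg (φ : C2) : C2
  | and (φ ψ : C2) : C2
  | cnt (k m r : ℕ) (v : Bool) (φ : C2) : C2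

/-- Satisfaction in the structure with the unary relations `P i` and the binary relations `R i`;
`cnt k m r v φ` says that the number of the values of the variable `v` which satisfy `φ` is at least
`k` and congruent to `r` modulo `m`. -/
def C2.Sat {A : Type} (P : ℕ → A → Prop) (R : ℕ → A → A → Prop) : C2 → (Bool → A) → Prop
  | .un i v, s => P i (s v)
  | .bi i v w, s => R i (s v) (s w)
  | .eq v w, s => s v = s w
  | .neg φ, s => ¬ φ.Sat P R s
  | .and φ ψ, s => φ.Sat P R s ∧ ψ.Sat P R s
  | .cnt k m r v φ, s => k ≤ {a | φ.Sat P R (Function.update s v a)}.ncard ∧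
      {a | φ.Sat P R (Function.update s v a)}.ncard ≡ r [MOD m]

/-- A kind of one-element structures: the sort, the colour of the element, the unary relations and the
loops. -/
structure Pt (N Q : Type) where
  s : N
  q : Q
  un : ℕ → Prop
  lp : ℕ → Prop

/-- An operation: a structure of sort `s` and a structure of sort `t` are put side by side and give a
structure of sort `u`; for `a` of colour `p` in the first and `b` of colour `q` in the second
structure the relation `R i a b` holds iff `l i p q` and `R i b a` iff `r i p q`; afterwards the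
colours are changed by `f` and `g`. The operation may be applied only to structures whose sizes `x`
and `y` satisfy `Nat.pair x y ∈ D`. -/
structure Op (N Q : Type) where
  s : N
  t : N
  u : N
  l : ℕ → Q → Q → Prop
  r : ℕ → Q → Q → Prop
  f : Q → Q
  g : Q → Q
  D : Set ℕ

/-- A grammar: finitely many kinds of one-element structures and finitely many operations. -/
structure Gram (N Q : Type) where
  pts : List (Pt N Q)
  ops : List (Op N Q)

/-- `G.Gen m P R s X c`: the structure with universe `X`, with the unary relations `P i` and the binary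
relations `R i`, `i < m`, and with the colours `c` is generated by the grammar and has the sort `s`. -/
inductive Gram.Gen {N Q A : Type} (G : Gram N Q) (m : ℕ) (P : ℕ → A → Prop) (R : ℕ → A → A → Prop) :
    N → Set A → (A → Q) → Prop
  | pt (x : Pt N Q) (hx : x ∈ G.pts) (a : A) (c : A → Q) (hc : c a = x.q)
      (hP : ∀ i < m, (P i a ↔ x.un i)) (hR : ∀ i < m, (R i a a ↔ x.lp i)) : Gen G m P R x.s {a} c
  | op (o : Op N Q) (ho : o ∈ G.ops) (X Y : Set A) (c c₁ c₂ : A → Q) (h₁ : Gen G m P R o.s X c₁)
      (h₂ : Gen G m P R o.t Y c₂) (hd : Disjoint X Y) (hD : Nat.pair X.ncard Y.ncard ∈ o.D)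
      (hR : ∀ a ∈ X, ∀ b ∈ Y, ∀ i < m,
        (R i a b ↔ o.l i (c₁ a) (c₂ b)) ∧ (R i b a ↔ o.r i (c₁ a) (c₂ b)))
      (hX : ∀ a ∈ X, c a = o.f (c₁ a)) (hY : ∀ b ∈ Y, c b = o.g (c₂ b)) :
      Gen G m P R o.u (X ∪ Y) c

/-- The sizes of the finite models of `φ` whose unary and binary relations with an index below `m` form
a structure generated by the grammar, of sort `s`; the other relations are arbitrary. -/
def specG {N Q : Type} (G : Gram N Q) (m : ℕ) (s : N) (φ : C2) : Set ℕ :=
  {n | 0 < n ∧ ∃ (P : ℕ → Fin n → Prop) (R : ℕ → Fin n → Fin n → Prop),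
    (∃ c, G.Gen m P R s Set.univ c) ∧ ∀ v : Bool → Fin n, φ.Sat P R v}

end Pool.Agent.H8.VR
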