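import Mathlib

/-!
# Composition systems
-/

set_option autoImplicit false

namespace Pool.Agent.H8.VR

open Classical

/-- A composition system: sorts `N`, colours `Q`, labels `L`, types of pairs `T`, operations `O`. -/
structure Sg (N Q L T O : Type) where
  /-- one-element structures -/
  pt : N → Q → L → Prop
  /-- the sort of the left argument -/
  s : O → N
  /-- the sort of the right argument -/
  t : O → N
  /-- the sort of the result -/
  u : O → N
  /-- the new colour of a left element -/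
  f : O → Q → Q
  /-- the new colour of a right element -/
  g : O → Q → Q
  /-- the allowed types from left elements to right elements -/
  al : O → Q → Q → T → Prop
  /-- the allowed pairs of sizes -/
  D : O → Set ℕ
  /-- the type in the other direction -/
  sw : T → T
  sw_sw : ∀ θ, sw (sw θ) = θ

/-- counting up to a finite congruence of the natural numbers -/
structure Cp (C : Type) where
  cp : ℕ → C
  ad : C → C → C
  cp_add : ∀ x y, cp (x + y) = ad (cp x) (cp y)

section
variable {N Q L T O C A : Type}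

/-- the generated structures -/
inductive Sg.Gen (S : Sg N Q L T O) (lam : A → L) (th : A → A → T) : N → Set A → (A → Q) → Prop
  | pt (s : N) (a : A) (c : A → Q) (h : S.pt s (c a) (lam a)) : Sg.Gen S lam th s {a} c
  | op (o : O) (X Y : Set A) (c c₁ c₂ : A → Q) (h₁ : Sg.Gen S lam th (S.s o) X c₁)
      (h₂ : Sg.Gen S lam th (S.t o) Y c₂) (hd : Disjoint X Y)
      (hg : Nat.pair X.ncard Y.ncard ∈ S.D o)
      (ha : ∀ a ∈ X, ∀ b ∈ Y, S.al o (c₁ a) (c₂ b) (th a b))
      (hX : ∀ a ∈ X, c a = S.f o (c₁ a)) (hY : ∀ b ∈ Y, c b = S.g o (c₂ b)) :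
      Sg.Gen S lam th (S.u o) (X ∪ Y) c

/-- the types are symmetric -/
def Sym (S : Sg N Q L T O) (th : A → A → T) : Prop := ∀ a b, a ≠ b → th b a = S.sw (th a b)

/-- the states: label and numbers of partners -/
abbrev St (L T C : Type) : Type := L × (L × T → C)

/-- colours and states -/
abbrev Ix (Q L T C : Type) : Type := Q × St L T C

variable [Fintype A]

/-- the number of the elements with the property `P` -/
noncomputable def num (P : A → Prop) : ℕ := (Finset.univ.filter P).card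

/-- the sum over the elements with the property `P` -/
noncomputable def fs (P : A → Prop) (f : A → ℕ) : ℕ := ∑ a with P a, f a

/-- one or zero -/
noncomputable def ind (P : Prop) : ℕ := if P then 1 else 0

/-- the number of the partners of `a` in `X` with a given label and a given type -/
noncomputable def kn (lam : A → L) (th : A → A → T) (X : Set A) (a : A) (p : L × T) : ℕ :=
  num fun b => b ∈ X ∧ b ≠ a ∧ lam b = p.1 ∧ th a b = p.2

/-- the state of `a` in `X` -/
noncomputable def stt (K : Cp C) (lam : A → L) (th : A → A → T) (X : Set A) (a : A) : St L T C :=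
  (lam a, fun p => K.cp (kn lam th X a p))

/-- the configuration: the numbers of the elements of `X` with a given colour and a given state in
`Y` -/
noncomputable def cf (K : Cp C) (lam : A → L) (th : A → A → T) (X Y : Set A) (c : A → Q) :
    Ix Q L T C → ℕ := fun τ => num fun a => a ∈ X ∧ (c a, stt K lam th Y a) = τ

end

section
variable {N Q L T O C : Type} [Fintype Q] [Fintype L] [Fintype T] [Fintype C]

/-- `n` is the size of an accepted structure -/
def SysMem (S : Sg N Q L T O) (K : Cp C) (s₀ : N) (Ok : St L T C → Prop) (n : ℕ) : Prop :=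
  ∃ (lam : Fin n → L) (th : Fin n → Fin n → T) (c : Fin n → Q), Sym S th ∧
    S.Gen lam th s₀ Set.univ c ∧ ∀ a, Ok (stt K lam th Set.univ a)

/-- the new index of a left element of index `σ` after the insertion of a right element of index `τ`
with the type `θ` -/
noncomputable def up (K : Cp C) (τ : Ix Q L T C) (p : Ix Q L T C × T) : Ix Q L T C :=
  (p.1.1, (p.1.2.1, Function.update p.1.2.2 (τ.2.1, p.2) (K.ad (p.1.2.2 (τ.2.1, p.2)) (K.cp 1))))

/-- the new index of the inserted element -/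
noncomputable def nw (S : Sg N Q L T O) (K : Cp C) (τ : Ix Q L T C) (m : Ix Q L T C × T → ℕ) :
    Ix Q L T C :=
  (τ.1, (τ.2.1, fun p => K.ad (τ.2.2 p)
    (K.cp (fs (fun σ : Ix Q L T C => σ.2.1 = p.1) fun σ => m (σ, S.sw p.2)))))

/-- one right element of index `τ` is inserted: `m (σ, θ)` left elements of index `σ` get the type
`θ` -/
def Step (S : Sg N Q L T O) (K : Cp C) (o : O) (τ : Ix Q L T C) (m : Ix Q L T C × T → ℕ)
    (a b d a' b' d' : Ix Q L T C → ℕ) : Prop :=
  (∀ σ, ∑ θ, m (σ, θ) = a σ) ∧ (∀ p, m p ≠ 0 → S.al o p.1.1 τ.1 p.2) ∧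
    (∀ σ, b' σ + ind (σ = τ) = b σ) ∧
    (∀ σ, a' σ = fs (fun p => up K τ p = σ) m) ∧
    (∀ σ, d' σ = d σ + ind (σ = nw S K τ m))

/-- the union is complete: the colours are changed -/
def Fn (S : Sg N Q L T O) (o : O) (a d c : Ix Q L T C → ℕ) : Prop :=
  ∀ σ, c σ = fs (fun ρ => (S.f o ρ.1, ρ.2) = σ) a + fs (fun ρ => (S.g o ρ.1, ρ.2) = σ) d

/-- the configurations of the one-element structures -/
def Ptc (S : Sg N Q L T O) (K : Cp C) (s : N) (c : Ix Q L T C → ℕ) : Prop :=
  ∃ q l, S.pt s q l ∧ ∀ σ, c σ = ind (σ = (q, (l, fun _ => K.cp 0)))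

/-- the total number -/
noncomputable def tot (c : Ix Q L T C → ℕ) : ℕ := ∑ σ, c σ

/-- the configurations of the generated structures -/
def RF (S : Sg N Q L T O) (K : Cp C) (s : N) (c : Ix Q L T C → ℕ) : Prop :=
  ∃ (A : Type) (_ : Fintype A) (lam : A → L) (th : A → A → T) (X : Set A) (col : A → Q),
    Sym S th ∧ S.Gen lam th s X col ∧ c = cf K lam th X X col

/-- the configurations of the incomplete unions: the elements of `Z` have been inserted, the elements
of `Y` have not -/
def RJ (S : Sg N Q L T O) (K : Cp C) (o : O) (a b d : Ix Q L T C → ℕ) : Prop :=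
  ∃ (A : Type) (_ : Fintype A) (lam : A → L) (th : A → A → T) (X Y Z : Set A) (col : A → Q),
    Sym S th ∧ (Disjoint X Y ∧ Disjoint X Z ∧ Disjoint Y Z) ∧ S.Gen lam th (S.s o) X col ∧
    S.Gen lam th (S.t o) (Y ∪ Z) col ∧ Nat.pair X.ncard (Y ∪ Z).ncard ∈ S.D o ∧
    (∀ x ∈ X, ∀ z ∈ Z, S.al o (col x) (col z) (th x z)) ∧
    a = cf K lam th X (X ∪ Z) col ∧ b = cf K lam th Y (Y ∪ Z) col ∧
    d = cf K lam th Z (X ∪ Y ∪ Z) col

/-- all values are smaller than `M` -/
def Lt {ι : Type} (M : ℕ) (c : ι → ℕ) : Prop := ∀ i, c i < M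

/-- `F` and `J` are closed under the rules, for numbers smaller than `M` and sizes up to `n`; `gm` is
the set of the forbidden pairs of sizes -/
def Closed (S : Sg N Q L T O) (K : Cp C) (M n : ℕ) (gm : O → ℕ → ℕ → Prop)
    (F : N → (Ix Q L T C → ℕ) → Prop)
    (J : O → (Ix Q L T C → ℕ) → (Ix Q L T C → ℕ) → (Ix Q L T C → ℕ) → Prop) : Prop :=
  (∀ s c, Lt M c → Ptc S K s c → F s c) ∧
  (∀ o a b d, Lt M a → Lt M b → Lt M d → (∀ σ, d σ = 0) → F (S.s o) a → F (S.t o) b →
    0 < tot a → 0 < tot b → tot a + tot b ≤ n → gm o (tot a) (tot b) ∨ J o a b d) ∧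
  (∀ o τ m a b d a' b' d', Lt M m → Lt M a → Lt M b → Lt M d → Lt M a' → Lt M b' → Lt M d' →
    J o a b d → Step S K o τ m a b d a' b' d' → J o a' b' d') ∧
  (∀ o a b d c, Lt M a → Lt M b → Lt M d → Lt M c → (∀ σ, b σ = 0) → J o a b d →
    Fn S o a d c → F (S.u o) c)

/-- every element of `F` and `J` comes from a rule, for numbers smaller than `M` and sizes up to `n`;
`gp` is the set of the allowed pairs of sizes -/
def Supp (S : Sg N Q L T O) (K : Cp C) (M n : ℕ) (gp : O → ℕ → ℕ → Prop)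
    (F : N → (Ix Q L T C → ℕ) → Prop)
    (J : O → (Ix Q L T C → ℕ) → (Ix Q L T C → ℕ) → (Ix Q L T C → ℕ) → Prop) : Prop :=
  (∀ s c, Lt M c → F s c → Ptc S K s c ∨ ∃ o, S.u o = s ∧ ∃ a b d, Lt M a ∧ Lt M b ∧ Lt M d ∧
    (∀ σ, b σ = 0) ∧ J o a b d ∧ Fn S o a d c) ∧
  (∀ o a b d, Lt M a → Lt M b → Lt M d → J o a b d →
    ((∀ σ, d σ = 0) ∧ F (S.s o) a ∧ F (S.t o) b ∧ 0 < tot a ∧ 0 < tot b ∧ tot a + tot b ≤ n ∧
      gp o (tot a) (tot b)) ∨
    ∃ τ, ∃ m a₀ b₀ d₀, Lt M m ∧ Lt M a₀ ∧ Lt M b₀ ∧ Lt M d₀ ∧ J o a₀ b₀ d₀ ∧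
      Step S K o τ m a₀ b₀ d₀ a b d)

/-- an accepted configuration of size `n` -/
def Acc (M : ℕ) (s₀ : N) (Ok : St L T C → Prop) (F : N → (Ix Q L T C → ℕ) → Prop) (n : ℕ) : Prop :=
  ∃ c, Lt M c ∧ F s₀ c ∧ tot c = n ∧ ∀ σ, c σ ≠ 0 → Ok σ.2

end

end Pool.Agent.H8.VR
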