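import Pool.Agent.H8.VR.Defs
import Pool.Agent.H8.VR.Sys

/-!
# Truth bits for the counting subformulas
-/

set_option autoImplicit false

namespace Pool.Agent.H8.VR

/-- the bits of the counting subformulas -/
def C2.Bt : C2 → Type
  | .un _ _ => Unit
  | .bi _ _ _ => Unit
  | .eq _ _ => Unit
  | .neg φ => φ.Bt
  | .and φ ψ => φ.Bt × ψ.Bt
  | .cnt _ _ _ _ φ => Bool × φ.Bt

/-- evaluation: `U`, `W`, `e` are the truth values of the atoms, `g v` are the bits of the value of the
variable `v` -/
def C2.ev : (φ : C2) → (ℕ → Bool → Prop) → (ℕ → Bool → Bool → Prop) → (Bool → Bool → Prop) →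
    (Bool → φ.Bt) → Prop
  | .un i v, U, _, _, _ => U i v
  | .bi i v w, _, W, _, _ => W i v w
  | .eq v w, _, _, e, _ => e v w
  | .neg φ, U, W, e, g => ¬ φ.ev U W e g
  | .and φ ψ, U, W, e, g => φ.ev U W e (fun v => (g v).1) ∧ ψ.ev U W e (fun v => (g v).2)
  | .cnt _ _ _ v _, _, _, _, g => (g (!v)).1 = true

/-- evaluation at a pair of elements -/
def C2.evA {A : Type} (φ : C2) (P : ℕ → A → Prop) (R : ℕ → A → A → Prop) (g : A → φ.Bt)
    (s : Bool → A) : Prop :=
  φ.ev (fun i v => P i (s v)) (fun i v w => R i (s v) (s w)) (fun v w => s v = s w)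
    (fun v => g (s v))

/-- the bits are correct -/
def C2.Good {A : Type} (P : ℕ → A → Prop) (R : ℕ → A → A → Prop) : (φ : C2) → (A → φ.Bt) → Prop
  | .un _ _, _ => True
  | .bi _ _ _, _ => True
  | .eq _ _, _ => True
  | .neg φ, g => φ.Good P R g
  | .and φ ψ, g => φ.Good P R (fun a => (g a).1) ∧ ψ.Good P R (fun a => (g a).2)
  | .cnt k m r v φ, g => φ.Good P R (fun a => (g a).2) ∧ ∀ a, ((g a).1 = true ↔
      k ≤ {b | φ.evA P R (fun c => (g c).2) (fun x => if x = v then b else a)}.ncard ∧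
      {b | φ.evA P R (fun c => (g c).2) (fun x => if x = v then b else a)}.ncard ≡ r [MOD m])

/-- a bound for the indices of the relation symbols -/
def C2.bd : C2 → ℕ
  | .un i _ => i + 1
  | .bi i _ _ => i + 1
  | .eq _ _ => 0
  | .neg φ => φ.bd
  | .and φ ψ => max φ.bd ψ.bd
  | .cnt _ _ _ _ φ => φ.bd

/-- the universally closed formula -/
def C2.clo (φ : C2) : C2 := .neg (.cnt 1 1 0 false (.cnt 1 1 0 true (.neg φ)))

/-! ### labels and types -/

section
variable {B : ℕ} {X A C : Type}

/-- labels: unary relations, loops, bits -/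
abbrev Lab (B : ℕ) (X : Type) : Type := (Fin B → Bool) × (Fin B → Bool) × X

/-- types of pairs: the relations in both directions -/
abbrev Ty (B : ℕ) : Type := (Fin B → Bool) × (Fin B → Bool)

/-- the value number `i` is `true` -/
def bit (f : Fin B → Bool) (i : ℕ) : Prop := ∃ h : i < B, f ⟨i, h⟩ = true

/-- the unary relations of a labelling -/
def PfL (lam : A → Lab B X) (i : ℕ) (a : A) : Prop := bit (lam a).1 i

/-- the binary relations of a labelling -/
def RfL (lam : A → Lab B X) (th : A → A → Ty B) (i : ℕ) (a b : A) : Prop :=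
  (a = b ∧ bit (lam a).2.1 i) ∨ (a ≠ b ∧ bit (th a b).1 i)

/-- evaluation at a pair of different elements with the labels `la`, `lb` and the type `t` (of the pair
`(a, b)`); the variable `v` has the value `b`, the other variable has the value `a` -/
def ev2 (φ : C2) (π : X → φ.Bt) (la lb : Lab B X) (t : Ty B) (v : Bool) : Prop :=
  φ.ev (fun i x => if x = v then bit lb.1 i else bit la.1 i)
    (fun i x y => if x = v then (if y = v then bit lb.2.1 i else bit t.2 i)
      else if y = v then bit t.1 i else bit la.2.1 i)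
    (fun x y => x = y) (fun x => if x = v then π lb.2.2 else π la.2.2)

/-- evaluation at one element with the label `la` -/
def ev1 (φ : C2) (π : X → φ.Bt) (la : Lab B X) : Prop :=
  φ.ev (fun i _ => bit la.1 i) (fun i _ _ => bit la.2.1 i) (fun _ _ => True) (fun _ => π la.2.2)

/-- the counting structure decides the counting conditions of the formula -/
def Sep (K : Cp C) : C2 → Prop
  | .un _ _ => True
  | .bi _ _ _ => True
  | .eq _ _ => True
  | .neg φ => Sep K φ
  | .and φ ψ => Sep K φ ∧ Sep K ψ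
  | .cnt k m r _ φ => (∃ W : C → Prop, ∀ c, (k ≤ c ∧ c ≡ r [MOD m]) ↔ W (K.cp c)) ∧ Sep K φ

open Classical in
/-- the local form of `C2.Good` -/
def OkF [Fintype X] (K : Cp C) : (φ : C2) → (X → φ.Bt) → St (Lab B X) (Ty B) C → Prop
  | .un _ _, _, _ => True
  | .bi _ _ _, _, _ => True
  | .eq _ _, _, _ => True
  | .neg φ, π, σ => OkF K φ π σ
  | .and φ ψ, π, σ => OkF K φ (fun x => (π x).1) σ ∧ OkF K ψ (fun x => (π x).2) σ
  | .cnt k m r v φ, π, σ => OkF K φ (fun x => (π x).2) σ ∧
      ∀ x : Lab B X × Ty B → ℕ, (∀ p, K.cp (x p) = σ.2 p) → ((π σ.1.2.2).1 = true ↔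
        k ≤ fs (fun p => ev2 φ (fun x => (π x).2) σ.1 p.1 p.2 v) x +
          ind (ev1 φ (fun x => (π x).2) σ.1) ∧
        fs (fun p => ev2 φ (fun x => (π x).2) σ.1 p.1 p.2 v) x +
          ind (ev1 φ (fun x => (π x).2) σ.1) ≡ r [MOD m])

end

end Pool.Agent.H8.VR
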