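import Pool.Agent.H8.VR.Defs
import Pool.Agent.H69.Mt.Refl

/-!
# Examples of context-free classes
-/

set_option autoImplicit false

namespace Pool.Agent.H8.VR

open Pool.Agent.H69.Sp Pool.Agent.H69.Mt

/-! ### ordered forests -/

/-- `R 0` is the ancestor relation and `R 1` the document order (preorder) of an ordered forest. -/
def OrdForest {A : Type} (R : ℕ → A → A → Prop) : Prop :=
  IsStrictTotalOrder A (R 1) ∧ (∀ a b, R 0 a b → R 1 a b) ∧
    (∀ a b c, R 0 a b → R 0 b c → R 0 a c) ∧ ∀ a b c, R 0 a c → R 1 a b → R 1 b c → R 0 a b

/-- the sizes of the ordered forests with arbitrary further unary and binary relations which satisfy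
`φ` -/
def specF (φ : C2) : Set ℕ :=
  {n | 0 < n ∧ ∃ (P : ℕ → Fin n → Prop) (R : ℕ → Fin n → Fin n → Prop), OrdForest R ∧
    ∀ v : Bool → Fin n, φ.Sat P R v}

/-- The grammar of the ordered forests: sort `false` is one element, sort `true` a forest; two unary
relations below `m = 2` are arbitrary. -/
noncomputable def forG : Gram Bool Unit where
  pts := [true, false].flatMap fun s => [true, false].flatMap fun x => [true, false].map fun y =>
    { s := s, q := (), un := fun i => if i = 0 then x = true else y = true, lp := fun _ => False }
  ops := [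
    { s := false, t := true, u := true, l := fun _ _ _ => True, r := fun _ _ _ => False,
      f := id, g := id, D := {n | 0 < n} },
    { s := true, t := true, u := true, l := fun i _ _ => i = 1, r := fun _ _ _ => False,
      f := id, g := id, D := {n | 0 < n} }]

/-- ordered forests are generated -/
def T_FR : Prop := ∀ (A : Type) [Finite A] [Nonempty A] (P : ℕ → A → Prop) (R : ℕ → A → A → Prop),
  OrdForest R ↔ ∃ c, forG.Gen 2 P R true Set.univ c

/-! ### nested equivalence relations -/

/-- `R 0 ⊆ R 1 ⊆ … ⊆ R (k - 1)` are equivalence relations. -/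
def NestEq {A : Type} (k : ℕ) (R : ℕ → A → A → Prop) : Prop :=
  (∀ i < k, Equivalence (R i)) ∧ ∀ i, i + 1 < k → ∀ a b, R i a b → R (i + 1) a b

/-- the sizes of the structures with `k` nested equivalence relations and arbitrary further unary and
binary relations which satisfy `φ` -/
def specE (k : ℕ) (φ : C2) : Set ℕ :=
  {n | 0 < n ∧ ∃ (P : ℕ → Fin n → Prop) (R : ℕ → Fin n → Fin n → Prop), NestEq k R ∧
    ∀ v : Bool → Fin n, φ.Sat P R v}

/-- The grammar of `k` nested equivalence relations: in the structures of sort `j` all pairs belong to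
`R i` for all `i ≥ j`; the unary relations are arbitrary. -/
noncomputable def neG (k : ℕ) : Gram (Fin (k + 1)) Unit where
  pts := (List.finRange (k + 1)).flatMap fun s =>
    (Finset.univ : Finset (Fin k → Bool)).toList.map fun x =>
      { s := s, q := (), un := fun i => ∃ h : i < k, x ⟨i, h⟩ = true, lp := fun _ => True }
  ops := (List.finRange (k + 1)).flatMap fun a => (List.finRange (k + 1)).flatMap fun b =>
    (List.finRange (k + 1)).flatMap fun c =>
      ((List.finRange (k + 1)).filter fun u => a ≤ c ∧ b ≤ c ∧ c ≤ u).map fun u =>
        { s := a, t := b, u := u, l := fun i _ _ => c.val ≤ i, r := fun i _ _ => c.val ≤ i,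
          f := id, g := id, D := {n | 0 < n} }

/-- structures with nested equivalence relations are generated -/
def T_NE : Prop := ∀ (k : ℕ) (A : Type) [Finite A] [Nonempty A] (P : ℕ → A → Prop)
  (R : ℕ → A → A → Prop), NestEq k R ↔ ∃ c, (neG k).Gen k P R (Fin.last k) Set.univ c

/-- the set of all positive numbers is a spectrum, and so is its complement -/
def T_PO : Prop := IsSpectrum {n | 0 < n} ∧ IsSpectrum (posCompl {n | 0 < n})

end Pool.Agent.H8.VR
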